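import Pool.Agent.Lib.Helper67.BA.VirtAb

/-!
# Monsters of types (2)-(6) have no virtual homomorphisms to the integers
-/

namespace Pool.Agent.Lib.Helper67.WG

open Pool.Agent.Lib.Helper67.FCC Pool.Agent.Lib.Helper67.BA

universe u

variable {G : Type u} [Group G]

theorem mulInt_pow {x : Multiplicative ℤ} {n : ℕ} (hn : n ≠ 0) (h : x ^ n = 1) : x = 1 := by
  have h1 := congrArg Multiplicative.toAdd h
  rw [toAdd_pow, toAdd_one, nsmul_eq_mul] at h1
  rcases mul_eq_zero.1 h1 with h2 | h2
  · exact absurd (by exact_mod_cast h2) hn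
  · exact Multiplicative.toAdd.injective (by rw [h2, toAdd_one])

/-- the preimage of the multiples of `n` -/
def Lv {H : Subgroup G} (f : H →* Multiplicative ℤ) (n : ℕ) : Subgroup G :=
  ((Subgroup.zpowers (Multiplicative.ofAdd (n : ℤ))).comap f).map H.subtype

theorem mem_Lv {H : Subgroup G} (f : H →* Multiplicative ℤ) (n : ℕ) {g : G} :
    g ∈ Lv f n ↔ ∃ h : H, h.1 = g ∧ (n : ℤ) ∣ Multiplicative.toAdd (f h) := by
  constructor
  · rintro ⟨h, ⟨i, hi⟩, rfl⟩
    refine ⟨h, rfl, i, ?_⟩
    have h1 : f h = Multiplicative.ofAdd (n : ℤ) ^ i := hi.symm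
    rw [h1, toAdd_zpow, toAdd_ofAdd, smul_eq_mul, mul_comm]
  · rintro ⟨h, rfl, i, hi⟩
    refine ⟨h, ⟨i, ?_⟩, rfl⟩
    apply Multiplicative.toAdd.injective
    simp only [toAdd_zpow, toAdd_ofAdd, smul_eq_mul]
    rw [hi, mul_comm]

theorem Lv_finiteIndex {H : Subgroup G} [hH : H.FiniteIndex] (f : H →* Multiplicative ℤ) {n : ℕ}
    (hn : n ≠ 0) : (Lv f n).FiniteIndex := by
  have : NeZero n := ⟨hn⟩
  let g : Multiplicative ℤ →* Multiplicative (ZMod n) :=
    AddMonoidHom.toMultiplicative (Int.castAddHom (ZMod n))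
  have hg : g.ker ≤ Subgroup.zpowers (Multiplicative.ofAdd (n : ℤ)) := by
    intro x hx
    have h1 : ((Multiplicative.toAdd x : ℤ) : ZMod n) = 0 := hx
    rw [ZMod.intCast_zmod_eq_zero_iff_dvd] at h1
    obtain ⟨i, hi⟩ := h1
    refine ⟨i, ?_⟩
    apply Multiplicative.toAdd.injective
    simp only [toAdd_zpow, toAdd_ofAdd, smul_eq_mul]
    rw [hi, mul_comm]
  have : Finite (Multiplicative (ZMod n)) := inferInstanceAs (Finite (ZMod n))
  have h0 : (g.comp f).ker.FiniteIndex := inferInstance
  have h1 : ((Subgroup.zpowers (Multiplicative.ofAdd (n : ℤ))).comap f).FiniteIndex := by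
    apply Subgroup.finiteIndex_of_le (H := (g.comp f).ker)
    intro x hx
    exact hg hx
  constructor
  rw [Lv, Subgroup.index_map_subtype]
  exact mul_ne_zero h1.index_ne_zero hH.index_ne_zero

theorem exists_proper {H : Subgroup G} (f : H →* Multiplicative ℤ) {h : H} (hh : f h ≠ 1) :
    ∃ n : ℕ, n ≠ 0 ∧ (h : G) ∉ Lv f n := by
  refine ⟨(Multiplicative.toAdd (f h)).natAbs + 1, by omega, fun h1 => ?_⟩
  obtain ⟨h', h2, i, hi⟩ := (mem_Lv f _).1 h1
  have h3 : h' = h := Subtype.ext h2
  subst h3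
  have h4 : Multiplicative.toAdd (f h') ≠ 0 := fun h5 => hh (Multiplicative.toAdd.injective (by
    rw [h5, toAdd_one]))
  have h5 : (((Multiplicative.toAdd (f h')).natAbs + 1 : ℕ) : ℤ) ∣ Multiplicative.toAdd (f h') :=
    ⟨i, hi⟩
  have h6 := Int.natAbs_dvd_natAbs.2 h5
  have h7 := Nat.le_of_dvd (Int.natAbs_pos.2 h4) h6
  simp only [Int.natAbs_natCast] at h7
  omega

theorem no_hom {k : ℕ} (hk : k ≠ 7) (hG : IsMonster k G) (H : Subgroup G) (hH : H.FiniteIndex)
    (f : H →* Multiplicative ℤ) : f = 1 := by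
  obtain ⟨hfg, hinf, hM⟩ := hG
  by_contra hf
  obtain ⟨h, hh⟩ : ∃ h, f h ≠ 1 := by
    by_contra hcon
    push Not at hcon
    exact hf (MonoidHom.ext hcon)
  obtain ⟨n, hn, hL⟩ := exists_proper f hh
  have hLf := Lv_finiteIndex f hn
  have hLt : Lv f n ≠ ⊤ := fun h1 => hL (h1 ▸ Subgroup.mem_top _)
  have hLinf : Infinite (Lv f n) := infinite_of_finiteIndex hinf _
  rcases hM with ⟨-, m, hm, h1⟩ | ⟨-, h1, h2⟩ | ⟨-, p, hp, h1⟩ | ⟨-, h1⟩ | ⟨-, h1⟩ | ⟨h7, -⟩
  · apply hh
    apply mulInt_pow (n := m) (by omega)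
    rw [← map_pow]
    have : h ^ m = 1 := Subtype.ext (h1 h.1)
    rw [this, map_one]
  · apply h1
    apply cyclic_of_proper hinf ?_ h2
    -- residually finite
    have hLc : IsCyclic (Lv f n) := h2 _ hLt
    have hker : ∀ g : H, (g : G) ∈ Lv f n → f g = 1 → g = 1 := by
      intro g hg hg1
      obtain ⟨c, hc⟩ := hLc.exists_generator
      obtain ⟨cH, hcH, -⟩ := (mem_Lv f n).1 c.2
      obtain ⟨i, hi⟩ := hc ⟨g, hg⟩
      obtain ⟨i', hi'⟩ := hc ⟨(h ^ n : H).1, (mem_Lv f n).2 ⟨h ^ n, rfl, by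
        rw [map_pow, toAdd_pow, nsmul_eq_mul]; exact Dvd.intro _ rfl⟩⟩
      have h3 : cH ^ i = g := by
        apply Subtype.ext
        have := congrArg Subtype.val hi
        simp only [Subgroup.coe_zpow] at this
        rw [Subgroup.coe_zpow, hcH]
        exact this
      have h4 : cH ^ i' = h ^ n := by
        apply Subtype.ext
        have := congrArg Subtype.val hi'
        simp only [Subgroup.coe_zpow] at this
        rw [Subgroup.coe_zpow, hcH]
        exact this
      have h5 : f cH ≠ 1 := by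
        intro h5
        apply hh
        apply mulInt_pow hn
        rw [← map_pow, ← h4, map_zpow, h5, one_zpow]
      have h6 : i = 0 := by
        by_contra h6
        apply h5
        have h7 : f cH ^ i = 1 := by rw [← map_zpow, h3, hg1]
        have h8 := congrArg Multiplicative.toAdd h7
        rw [toAdd_zpow, toAdd_one, smul_eq_mul] at h8
        rcases mul_eq_zero.1 h8 with h9 | h9
        · exact absurd h9 h6
        · exact Multiplicative.toAdd.injective (by rw [h9, toAdd_one])
      rw [← h3, h6, zpow_zero]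
    intro g hg
    by_cases hgL : g ∈ Lv f n
    · obtain ⟨gH, rfl, -⟩ := (mem_Lv f n).1 hgL
      have h3 : f gH ≠ 1 := by
        intro h3
        apply hg
        rw [hker gH hgL h3]
        rfl
      obtain ⟨m, hm, h4⟩ := exists_proper f h3
      have h5 := Lv_finiteIndex f hm
      exact ⟨(Lv f m).normalCore, inferInstance, inferInstance,
        fun h6 => h4 (Subgroup.normalCore_le _ h6)⟩
    · exact ⟨(Lv f n).normalCore, inferInstance, inferInstance,
        fun h6 => hgL (Subgroup.normalCore_le _ h6)⟩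
  · have h2 : Lv f n ≠ ⊥ := by
      intro h2
      rw [h2] at hLinf
      exact not_finite (⊥ : Subgroup G)
    have h3 := (h1 _ h2 hLt).2
    have h4 : Finite (Lv f n) := Nat.finite_of_card_ne_zero (by rw [h3]; exact hp.ne_zero)
    exact not_finite (Lv f n)
  · exact hLt (Subgroup.eq_top_iff' _ |>.2 fun g =>
      Subgroup.normalCore_le _ (not_mem_of_divisible (N := (Lv f n).normalCore) h1 g))
  · have h2 : Finite (ConjClasses H) := finite_of_finiteIndex H
    have h3 : Finite (ConjClasses f.range) := by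
      refine Finite.of_surjective (ConjClasses.map f.rangeRestrict) ?_
      intro c
      obtain ⟨z, rfl⟩ := ConjClasses.mk_surjective c
      obtain ⟨g, rfl⟩ := f.rangeRestrict_surjective z
      exact ⟨ConjClasses.mk g, rfl⟩
    have h4 : Finite f.range := by
      apply Finite.of_injective (ConjClasses.mk (α := f.range))
      exact ConjClasses.mk_injective
    have h5 : Function.Injective (fun i : ℕ => (⟨f h ^ i, ⟨h ^ i, map_pow f h i⟩⟩ : f.range)) := by
      intro i j hij
      have h6 := congrArg (fun x : f.range => Multiplicative.toAdd x.1) hij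
      simp only [toAdd_pow, nsmul_eq_mul] at h6
      have h7 : Multiplicative.toAdd (f h) ≠ 0 := fun h5 => hh (Multiplicative.toAdd.injective (by
        rw [h5, toAdd_one]))
      have h8 := mul_right_cancel₀ h7 h6
      exact_mod_cast h8
    exact not_injective_infinite_finite _ h5
  · exact hk h7

end Pool.Agent.Lib.Helper67.WG
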