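import Mathlib

/-!
# Finite quotients of finitely generated groups
-/

namespace Pool.Agent.Lib.Helper67.WG

universe u v w

variable {E : Type u} [Group E]

theorem finite_hom [hE : Group.FG E] (Q : Type v) [Group Q] [Finite Q] : Finite (E →* Q) := by
  obtain ⟨S, hS, hSf⟩ := (Group.fg_iff (G := E)).1 hE
  have := hSf.to_subtype
  apply Finite.of_injective (fun f : E →* Q => fun s : S => f s.1)
  intro f g h
  apply MonoidHom.eq_of_eqOn_dense hS
  intro s hs
  exact congrFun h ⟨s, hs⟩

variable (E) in
/-- the intersection of the kernels of all actions on at most `C` points -/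
def Core (C : ℕ) : Subgroup E := ⨅ q : Fin (C + 1), ⨅ f : E →* Equiv.Perm (Fin q.1), f.ker

theorem core_finiteIndex [hE : Group.FG E] (C : ℕ) : (Core E C).FiniteIndex := by
  apply Subgroup.finiteIndex_iInf
  intro q
  have := finite_hom (E := E) (Equiv.Perm (Fin q.1))
  apply Subgroup.finiteIndex_iInf
  intro f
  infer_instance

theorem core_anti {C C' : ℕ} (h : C ≤ C') : Core E C' ≤ Core E C := by
  intro e he
  simp only [Core, Subgroup.mem_iInf] at he ⊢
  intro q f
  exact he ⟨q.1, by omega⟩ f

theorem core_apply {Y : Type v} [Finite Y] {C : ℕ} (hY : Nat.card Y ≤ C)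
    (f : E →* Equiv.Perm Y) {e : E} (he : e ∈ Core E C) (y : Y) : f e y = y := by
  let φ : Y ≃ Fin (Nat.card Y) := Finite.equivFin Y
  let g : E →* Equiv.Perm (Fin (Nat.card Y)) := (φ.permCongrHom : _ →* _).comp f
  simp only [Core, Subgroup.mem_iInf] at he
  have h1 : g e = 1 := he ⟨Nat.card Y, by omega⟩ g
  have h2 : g e (φ y) = φ (f e y) := by
    show φ (f e (φ.symm (φ y))) = _
    rw [Equiv.symm_apply_apply]
  rw [h1] at h2
  exact φ.injective h2.symm

/-- an action descends along a surjection with respected fibres -/
theorem descend {X : Type v} {Y : Type w} (F : E →* Equiv.Perm X) {π : X → Y}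
    (hπ : Function.Surjective π) (h : ∀ e x x', π x = π x' → π (F e x) = π (F e x')) :
    ∃ F' : E →* Equiv.Perm Y, ∀ e x, F' e (π x) = π (F e x) := by
  choose s hs using hπ
  have key : ∀ e x, π (F e (s (π x))) = π (F e x) := fun e x => h e _ _ (hs _)
  have key2 : ∀ e e' y, π (F e (s (π (F e' (s y))))) = π (F (e * e') (s y)) := by
    intro e e' y
    rw [key, map_mul, Equiv.Perm.mul_apply]
  let F' : E →* Equiv.Perm Y :=
    { toFun := fun e =>
        { toFun := fun y => π (F e (s y))
          invFun := fun y => π (F e⁻¹ (s y))
          left_inv := fun y => by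
            show π (F e⁻¹ (s (π (F e (s y))))) = y
            rw [key2, inv_mul_cancel, map_one]
            exact hs y
          right_inv := fun y => by
            show π (F e (s (π (F e⁻¹ (s y))))) = y
            rw [key2, mul_inv_cancel, map_one]
            exact hs y }
      map_one' := by
        apply Equiv.ext
        intro y
        show π (F 1 (s y)) = y
        rw [map_one]
        exact hs y
      map_mul' := fun a b => by
        apply Equiv.ext
        intro y
        show π (F (a * b) (s y)) = π (F a (s (π (F b (s y)))))
        rw [key2] }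
  exact ⟨F', fun e x => key e x⟩

/-- restriction to an invariant set -/
theorem restrict {X : Type v} (F : E →* Equiv.Perm X) {O : Set X}
    (h : ∀ e x, x ∈ O → F e x ∈ O) :
    ∃ F' : E →* Equiv.Perm O, ∀ e x, (F' e x).1 = F e x.1 := by
  let F' : E →* Equiv.Perm O :=
    { toFun := fun e =>
        { toFun := fun x => ⟨F e x.1, h e _ x.2⟩
          invFun := fun x => ⟨F e⁻¹ x.1, h _ _ x.2⟩
          left_inv := fun x => by
            apply Subtype.ext
            show F e⁻¹ (F e x.1) = x.1
            rw [← Equiv.Perm.mul_apply, ← map_mul, inv_mul_cancel, map_one]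
            rfl
          right_inv := fun x => by
            apply Subtype.ext
            show F e (F e⁻¹ x.1) = x.1
            rw [← Equiv.Perm.mul_apply, ← map_mul, mul_inv_cancel, map_one]
            rfl }
      map_one' := by
        apply Equiv.ext
        intro x
        apply Subtype.ext
        show F 1 x.1 = x.1
        rw [map_one]
        rfl
      map_mul' := fun a b => by
        apply Equiv.ext
        intro x
        apply Subtype.ext
        show F (a * b) x.1 = F a (F b x.1)
        rw [map_mul]
        rfl }
  exact ⟨F', fun e x => rfl⟩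

end Pool.Agent.Lib.Helper67.WG
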