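import Pool.Agent.Lib.Helper67.BA.Monster

/-!
# A finitely supported element and an element with an infinite orbit give exponential growth
-/

namespace Pool.Agent.Lib.Helper67.WG

open Pool.Agent.Lib.Helper67.FCC Pool.Agent.Lib.Helper67.BA

universe u v

variable {G : Type u} [Group G] {X : Type v}

/-- the test elements -/
def QQ (k u : G) : List Bool → G
  | [] => 1
  | b :: l => (if b then k else 1) * (u * QQ k u l * u⁻¹)

theorem QQ_fix (F : G →* Equiv.Perm X) {k u : G} {x : X}
    (h : ∀ j : ℤ, j ≠ 0 → F k (F (u ^ j) x) = F (u ^ j) x) (l : List Bool) (j : ℕ) :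
    F (QQ k u l) (F (u ^ (-(j + 1 : ℤ))) x) = F (u ^ (-(j + 1 : ℤ))) x := by
  induction l generalizing j with
  | nil => simp [QQ]
  | cons b l ih =>
    have h1 : F u⁻¹ (F (u ^ (-(j + 1 : ℤ))) x) = F (u ^ (-((j + 1 : ℕ) + 1 : ℤ))) x := by
      rw [← Equiv.Perm.mul_apply, ← map_mul, ← zpow_neg_one, ← zpow_add]
      congr 3
      push_cast
      ring
    have h2 : F u (F (u ^ (-((j + 1 : ℕ) + 1 : ℤ))) x) = F (u ^ (-(j + 1 : ℤ))) x := by
      rw [← Equiv.Perm.mul_apply, ← map_mul]
      nth_rewrite 1 [← zpow_one u]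
      rw [← zpow_add]
      congr 3
    rw [QQ, map_mul, map_mul, map_mul, Equiv.Perm.mul_apply, Equiv.Perm.mul_apply,
      Equiv.Perm.mul_apply, h1, ih (j + 1), h2]
    cases b with
    | true => exact h _ (by omega)
    | false => simp

theorem QQ_self (F : G →* Equiv.Perm X) {k u : G} {x : X}
    (h : ∀ j : ℤ, j ≠ 0 → F k (F (u ^ j) x) = F (u ^ j) x) (b : Bool) (l : List Bool) :
    F (QQ k u (b :: l)) x = F (if b then k else 1) x := by
  have h1 : F u⁻¹ x = F (u ^ (-((0 : ℕ) + 1 : ℤ))) x := by simp
  have h2 : F u (F (u ^ (-((0 : ℕ) + 1 : ℤ))) x) = x := by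
    rw [← h1, ← Equiv.Perm.mul_apply, ← map_mul, mul_inv_cancel]
    simp
  rw [QQ, map_mul, map_mul, map_mul, Equiv.Perm.mul_apply, Equiv.Perm.mul_apply,
    Equiv.Perm.mul_apply, h1, QQ_fix F h l 0, h2]

theorem QQ_inj (F : G →* Equiv.Perm X) {k u : G} {x : X}
    (h : ∀ j : ℤ, j ≠ 0 → F k (F (u ^ j) x) = F (u ^ j) x) (hx : F k x ≠ x) :
    ∀ l l' : List Bool, l.length = l'.length → QQ k u l = QQ k u l' → l = l' := by
  intro l
  induction l with
  | nil =>
    intro l' hl _
    exact (List.length_eq_zero_iff.1 hl.symm).symm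
  | cons b l ih =>
    intro l' hl hQ
    cases l' with
    | nil => simp at hl
    | cons b' l' =>
      have h1 : F (if b then k else 1) x = F (if b' then k else 1) x := by
        rw [← QQ_self F h b l, ← QQ_self F h b' l', hQ]
      have h2 : b = b' := by
        cases b <;> cases b'
        · rfl
        · exfalso
          simp at h1
          exact hx h1.symm
        · exfalso
          simp at h1
          exact hx h1
        · rfl
      subst h2
      rw [QQ, QQ] at hQ
      have h3 := mul_left_cancel hQ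
      have h4 := mul_left_cancel (mul_right_cancel h3)
      rw [ih l' (by simpa using hl) h4]

theorem QQ_length (k u : G) (l : List Bool) {S : Set G} {K U : ℕ} (hk : InBall S K k)
    (hu : InBall S U u) : InBall S (l.length * (K + U)) (QQ k u l * u ^ l.length) := by
  induction l with
  | nil => simpa [QQ] using inBall_one S 0
  | cons b l ih =>
    have h1 : QQ k u (b :: l) * u ^ (b :: l).length =
        (if b then k else 1) * u * (QQ k u l * u ^ l.length) := by
      rw [QQ, List.length_cons, pow_succ']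
      group
    rw [h1]
    have h2 : InBall S K (if b then k else 1) := by
      cases b
      · simpa using inBall_one S K
      · simpa using hk
    refine ((h2.mul hu).mul ih).mono ?_
    rw [List.length_cons]
    ring_nf
    exact le_rfl

theorem growth_of_finitary (F : G →* Equiv.Perm X) {k t : G} {x : X}
    (hk : {y | F k y ≠ y}.Finite) (hx : F k x ≠ x)
    (ht : ∀ i : ℕ, F (t ^ (i + 1)) x ≠ x) {S : Set G} (hSf : S.Finite)
    (hS : Subgroup.closure S = ⊤) :
    ∃ c : ℝ, 0 < c ∧ ∀ r : ℕ, Real.exp (c * r) ≤ (Set.ncard {x : G | InBall S r x} : ℝ) := by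
  classical
  have hinj : Function.Injective (fun j : ℤ => F (t ^ j) x) := by
    have key : ∀ i j : ℤ, i < j → F (t ^ i) x = F (t ^ j) x → False := by
      intro i j hij h
      obtain ⟨n, hn⟩ : ∃ n : ℕ, j - i = n + 1 := ⟨(j - i - 1).toNat, by omega⟩
      apply ht n
      have h1 : t ^ (n + 1) = t ^ (-i) * t ^ j := by
        rw [← zpow_natCast, ← zpow_add]
        congr 1
        push_cast
        omega
      rw [h1, map_mul, Equiv.Perm.mul_apply, ← h, ← Equiv.Perm.mul_apply, ← map_mul, ← zpow_add]
      simp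
    intro i j h
    rcases lt_trichotomy i j with h1 | h1 | h1
    · exact (key i j h1 h).elim
    · exact h1
    · exact (key j i h1 h.symm).elim
  obtain ⟨M, hM⟩ : ∃ M : ℕ, ∀ j : ℤ, (M : ℤ) ≤ |j| → F k (F (t ^ j) x) = F (t ^ j) x := by
    have h1 : {j : ℤ | F k (F (t ^ j) x) ≠ F (t ^ j) x}.Finite := by
      have := hk.preimage (f := fun j : ℤ => F (t ^ j) x) hinj.injOn
      exact this
    obtain ⟨B, hB⟩ := (h1.image (fun j : ℤ => |j|)).bddAbove
    refine ⟨(B + 1).toNat, fun j hj => ?_⟩
    by_contra hcon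
    have h2 := hB ⟨j, hcon, rfl⟩
    simp only at h2
    omega
  let u : G := t ^ (M + 1)
  have hu : ∀ j : ℤ, j ≠ 0 → F k (F (u ^ j) x) = F (u ^ j) x := by
    intro j hj
    have h1 : u ^ j = t ^ (((M + 1 : ℕ) : ℤ) * j) := by
      rw [zpow_mul, zpow_natCast]
    rw [h1]
    apply hM
    rw [abs_mul]
    have h2 : 1 ≤ |j| := Int.one_le_abs hj
    have h3 : |((M + 1 : ℕ) : ℤ)| = M + 1 := by
      rw [abs_of_nonneg (by positivity)]
      push_cast
      ring
    rw [h3]
    nlinarith
  obtain ⟨K, hK⟩ := exists_inBall hS k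
  obtain ⟨U, hU⟩ := exists_inBall hS u
  let D : ℕ := K + 2 * U + 1
  have hball : ∀ l : List Bool, InBall S (l.length * (K + 2 * U)) (QQ k u l) := by
    intro l
    have h1 := (QQ_length k u l hK hU).mul (hU.pow l.length).inv
    rw [mul_assoc, mul_inv_cancel, mul_one] at h1
    refine h1.mono ?_
    ring_nf
    exact le_rfl
  apply exp_bound (D := D) (by omega)
  · intro r
    let Φ : List.Vector Bool (r / D) → G := fun v => QQ k u v.1
    have hΦ : Function.Injective Φ := by
      intro v w h
      exact Subtype.ext (QQ_inj F hu hx v.1 w.1 (by rw [v.2, w.2]) h)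
    have h2 : Set.range Φ ⊆ {x : G | InBall S r x} := by
      rintro _ ⟨v, rfl⟩
      refine (hball v.1).mono ?_
      rw [v.2]
      calc r / D * (K + 2 * U) ≤ r / D * D := Nat.mul_le_mul_left _ (by omega)
        _ ≤ r := Nat.div_mul_le_self r D
    have h3 := Set.ncard_le_ncard h2 (finite_ball hSf r)
    have h4 : Set.ncard (Set.range Φ) = 2 ^ (r / D) := by
      rw [← Set.image_univ, Set.ncard_image_of_injective _ hΦ, Set.ncard_univ,
        Nat.card_eq_fintype_card, card_vector, Fintype.card_bool]
    rwa [h4] at h3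
  · intro r hr
    have h1 : ∃ s ∈ S, s ≠ 1 := by
      by_contra hcon
      push Not at hcon
      have h2 : Subgroup.closure S ≤ ⊥ := by
        rw [Subgroup.closure_le]
        intro s hs
        exact Subgroup.mem_bot.2 (hcon s hs)
      rw [hS] at h2
      have h3 : k = 1 := Subgroup.mem_bot.1 (h2 (Subgroup.mem_top _))
      apply hx
      rw [h3]
      simp
    obtain ⟨s, hs, hs1⟩ := h1
    have h2 : ({s, 1} : Set G) ⊆ {x : G | InBall S r x} := by
      rintro x (rfl | rfl)
      · exact ⟨[x], by simpa using hr, by simpa using Or.inl hs, by simp⟩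
      · exact inBall_one S r
    have h3 := Set.ncard_le_ncard h2 (finite_ball hSf r)
    rwa [Set.ncard_pair hs1] at h3

end Pool.Agent.Lib.Helper67.WG
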