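import Pool.Agent.Lib.Helper67.WG.Pump
import Pool.Agent.Lib.Helper67.WG.Core
import Pool.Agent.Lib.Helper67.WG.GrowthLemma

/-!
# Eventually periodic lines
-/

namespace Pool.Agent.Lib.Helper67.WG

open Pool.Agent.Lib.Helper67.FCC

universe u

variable {E : Type u} [Group E] {P : Pres E} {r : ℕ}

theorem fg_of_pres (P : Pres E) : Group.FG E := by
  have := P.fin
  refine (Group.fg_iff (G := E)).2 ⟨Set.range P.s, ?_, Set.finite_range _⟩
  rw [eq_top_iff]
  intro e _
  obtain ⟨l, rfl⟩ := P.hgen e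
  apply Subgroup.list_prod_mem
  intro x hx
  obtain ⟨a, -, rfl⟩ := List.mem_map.1 hx
  exact Subgroup.subset_closure ⟨a, rfl⟩

/-! ### periodic lines -/

/-- periodic lines -/
def Periodic (y : Line P) (p : ℤ) : Prop := ∀ x j : ℤ, y (x + p * j) = y x

theorem periodic_per (d : Line P) (c p : ℤ) : Periodic (per d c p) p := fun x j =>
  per_add_mul d c p x j

theorem Good.th_shift {y : Line P} {p : ℤ} (hy : Good r y) (h : Periodic y p) (e : E) (x j : ℤ) :
    hy.th e (x + p * j) = hy.th e x + p * j := by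
  have h1 := th_congr hy hy e (c := x + p * j) (c' := x) (fun i _ => by
    rw [← h (x + i) j]
    congr 1
    ring)
  omega

theorem Good.core_mod {y : Line P} {p : ℤ} (hy : Good r y) (h : Periodic y p) (hp : 0 < p)
    {B : ℕ} (hpB : p ≤ B) {e : E} (he : e ∈ Core E B) (x : ℤ) : ∃ j, hy.th e x = x + p * j := by
  obtain ⟨n, rfl⟩ : ∃ n : ℕ, p = n := ⟨p.toNat, by omega⟩
  have : NeZero n := ⟨by omega⟩
  have hfib : ∀ (a b : ℤ), (a : ZMod n) = (b : ZMod n) ↔ ∃ j, b = a + n * j := by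
    intro a b
    rw [ZMod.intCast_eq_intCast_iff_dvd_sub]
    constructor
    · rintro ⟨j, hj⟩
      exact ⟨j, by omega⟩
    · rintro ⟨j, hj⟩
      exact ⟨j, by omega⟩
  obtain ⟨F', hF'⟩ := descend hy.th (π := fun a : ℤ => (a : ZMod n))
    (ZMod.intCast_surjective) (by
      intro e a b hab
      obtain ⟨j, rfl⟩ := (hfib a b).1 hab
      apply (hfib _ _).2
      exact ⟨j, hy.th_shift h e a j⟩)
  have h1 := core_apply (C := B) (by
    rw [Nat.card_eq_fintype_card, ZMod.card]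
    omega) F' he (x : ZMod n)
  rw [hF'] at h1
  exact (hfib _ _).1 h1.symm

theorem Good.core_comm {y : Line P} {p : ℤ} (hy : Good r y) (h : Periodic y p) (hp : 0 < p)
    {B : ℕ} (hpB : p ≤ B) {e e' : E} (he : e ∈ Core E B) (he' : e' ∈ Core E B) (x : ℤ) :
    hy.th (e * e') x = hy.th (e' * e) x := by
  obtain ⟨j, hj⟩ := hy.core_mod h hp hpB he x
  obtain ⟨j', hj'⟩ := hy.core_mod h hp hpB he' x
  rw [map_mul, map_mul, Equiv.Perm.mul_apply, Equiv.Perm.mul_apply, hj, hj', hy.th_shift h,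
    hy.th_shift h, hj, hj']
  ring

/-- the translation homomorphism -/
noncomputable def Good.tr {y : Line P} {p : ℤ} (hy : Good r y) (h : Periodic y p) (hp : 0 < p)
    {B : ℕ} (hpB : p ≤ B) (x : ℤ) : Core E B →* Multiplicative ℤ where
  toFun e := Multiplicative.ofAdd (hy.th e.1 x - x)
  map_one' := by simp
  map_mul' e e' := by
    obtain ⟨j, hj⟩ := hy.core_mod h hp hpB e.2 x
    obtain ⟨j', hj'⟩ := hy.core_mod h hp hpB e'.2 x
    rw [← ofAdd_add]
    congr 1
    rw [Subgroup.coe_mul, map_mul, Equiv.Perm.mul_apply, hj', hy.th_shift h, hj]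
    ring

/-! ### far to the right -/

/-- the orbit of `m` is unbounded to the right -/
def Unb (z : Line P) (m : ℤ) : Prop := ∀ K, ∃ y, K ≤ y ∧ Reach z m y

theorem exists_generators (hE : Group.FG E) (H : Subgroup E) [hH : H.FiniteIndex] :
    ∃ T : Set E, T.Finite ∧ T ⊆ H ∧ (∀ t ∈ T, t⁻¹ ∈ T) ∧
      ∀ g ∈ H, ∃ l : List E, (∀ x ∈ l, x ∈ T) ∧ l.prod = g := by
  have hfg : Group.FG H := Subgroup.fg_of_index_ne_zero H
  obtain ⟨S, hS, hSf⟩ := (Group.fg_iff (G := H)).1 hfg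
  let T : Set E := Subtype.val '' (S ∪ S⁻¹)
  refine ⟨T, (hSf.union hSf.inv).image _, ?_, ?_, ?_⟩
  · rintro _ ⟨x, -, rfl⟩
    exact x.2
  · rintro _ ⟨x, hx, rfl⟩
    refine ⟨x⁻¹, ?_, rfl⟩
    rcases hx with h | h
    · exact Or.inr (by simpa using h)
    · exact Or.inl h
  · intro g hg
    obtain ⟨l, h1, h2⟩ := exists_list_of_mem_closure (S := S) (g := (⟨g, hg⟩ : H))
      (by rw [hS]; exact Subgroup.mem_top _)
    refine ⟨l.map Subtype.val, ?_, ?_⟩
    · intro x hx
      obtain ⟨y, hy, rfl⟩ := List.mem_map.1 hx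
      refine ⟨y, ?_, rfl⟩
      rcases h1 y hy with h | h
      · exact Or.inl h
      · exact Or.inr h
    · have h3 := congrArg Subtype.val h2
      exact (map_list_prod H.subtype l).symm.trans h3

theorem exists_disp_bound (P : Pres E) (r : ℕ) {T : Set E} (hT : T.Finite) :
    ∃ D : ℕ, ∀ t ∈ T, disp P r t ≤ D := by
  obtain ⟨D, hD⟩ := (hT.image (disp P r)).bddAbove
  exact ⟨D, fun t ht => hD ⟨t, ht, rfl⟩⟩

theorem Unb.sub {z : Line P} {m : ℤ} (hz : Good r z) (h : Unb z m) (H : Subgroup E)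
    [hH : H.FiniteIndex] (K : ℤ) : ∃ e ∈ H, K ≤ hz.th e m := by
  have hfin : Finite (E ⧸ H) := Subgroup.finite_quotient_of_finiteIndex
  obtain ⟨D, hD⟩ := exists_disp_bound P r (Set.finite_range (fun q : E ⧸ H => q.out))
  obtain ⟨y, hy, hmy⟩ := h (K + D)
  obtain ⟨e, rfl⟩ := hz.exists_th_of_reach hmy
  let q : E := (QuotientGroup.mk e : E ⧸ H).out
  have hq : q⁻¹ * e ∈ H := by
    rw [← QuotientGroup.eq]
    exact Quotient.out_eq' _
  refine ⟨q⁻¹ * e, hq, ?_⟩
  have h1 := hz.th_bd q (hz.th (q⁻¹ * e) m)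
  rw [← Equiv.Perm.mul_apply, ← map_mul, mul_inv_cancel_left, abs_le] at h1
  have h2 := hD q ⟨_, rfl⟩
  omega

theorem far {z : Line P} {R p m : ℤ} (hz : Good r z) (hp : 0 < p) (hR : RPer z R p)
    {B : ℕ} (hpB : p ≤ B) (hunb : Unb z m) :
    ∃ g ∈ Core E B, ∃ s ∈ Core E B, ∃ δ : ℤ, 0 < δ ∧
      (hz.per hp hR).th s (hz.th g m) = hz.th g m + δ ∧
      ∀ n : ℕ, hz.th (s ^ n) (hz.th g m) = hz.th g m + n * δ := by
  have hE := fg_of_pres P
  have hcore : (Core E B).FiniteIndex := core_finiteIndex B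
  obtain ⟨T, hTf, hTH, hTinv, hT⟩ := exists_generators hE (Core E B)
  obtain ⟨D, hD⟩ := exists_disp_bound P r hTf
  let R' : ℤ := max m (R + 2 * D)
  obtain ⟨g, hg, s, hs, h1, h2⟩ : ∃ g ∈ Core E B, ∃ s ∈ T, hz.th g m ≤ R' ∧
      R' < hz.th s (hz.th g m) := by
    by_contra hcon
    push Not at hcon
    obtain ⟨e, he, h1⟩ := hunb.sub hz (Core E B) (R' + 1)
    have h2 : ∀ l : List E, (∀ x ∈ l, x ∈ T) → l.prod ∈ Core E B ∧ hz.th l.prod m ≤ R' := by
      intro l
      induction l with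
      | nil =>
        intro _
        refine ⟨Subgroup.one_mem _, ?_⟩
        simp only [List.prod_nil, map_one, Equiv.Perm.coe_one, id_eq]
        exact le_max_left _ _
      | cons t l ih =>
        intro hl
        obtain ⟨h3, h4⟩ := ih fun x hx => hl x (List.mem_cons_of_mem _ hx)
        have ht : t ∈ T := hl t (by simp)
        refine ⟨?_, ?_⟩
        · rw [List.prod_cons]
          exact Subgroup.mul_mem _ (hTH ht) h3
        · rw [List.prod_cons, map_mul, Equiv.Perm.mul_apply]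
          exact hcon _ h3 t ht h4
    obtain ⟨l, h3, rfl⟩ := hT e he
    have := (h2 l h3).2
    omega
  set x' : ℤ := hz.th g m with hx'
  have h3 := hz.th_bd s x'
  have h4 := hD s hs
  rw [abs_le] at h3
  have hR' : R + 2 * D ≤ R' := le_max_right _ _
  have hRx : R + D ≤ x' := by omega
  have hloc : ∀ w, x' ≤ w → hz.th s w = (hz.per hp hR).th s w := by
    intro w hw
    have h5 := th_congr hz (hz.per hp hR) s (c := w) (c' := w) (by
      intro i hi
      rw [abs_le] at hi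
      exact (hR.per_eq hp (by omega)).symm)
    omega
  obtain ⟨j, hj⟩ := (hz.per hp hR).core_mod (periodic_per z R p) hp hpB (hTH hs) x'
  have hδ : 0 < p * j := by
    rw [hloc x' le_rfl, hj] at h2
    omega
  refine ⟨g, hg, s, hTH hs, p * j, hδ, hj, fun n => ?_⟩
  induction n with
  | zero => simp
  | succ n ih =>
    rw [pow_succ', map_mul, Equiv.Perm.mul_apply, ih, hloc _ (by
      have : 0 ≤ (n : ℤ) * (p * j) := by positivity
      omega)]
    have h5 : x' + (n : ℤ) * (p * j) = x' + p * (n * j) := by ring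
    rw [h5, (hz.per hp hR).th_shift (periodic_per z R p), hj]
    push_cast
    ring

/-- **Theorem A.** A long orbit gives a homomorphism to the integers. -/
theorem exists_hom_of_long {d : Line P} (hd : Good r d) {x y : ℤ} (hxy : Reach d x y)
    (hlong : x + 1 + BB P r ≤ y) :
    ∃ f : Core E (BB P r) →* Multiplicative ℤ, f ≠ 1 := by
  obtain ⟨d', c, p, h1, h2, h3, h4, -, h6, h7⟩ := pump hd (x := x) (a := x + 1) (by omega)
  have h8 : p ≤ BB P r := by omega
  obtain ⟨g, -, s, hs, δ, hδ, h9, -⟩ := far h1 h3 h6 h8 (h7 ⟨y, hlong, hxy⟩)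
  refine ⟨(h1.per h3 h6).tr (periodic_per d' c p) h3 h8 (h1.th g x), fun h => ?_⟩
  have h10 := DFunLike.congr_fun h ⟨s, hs⟩
  have h11 : (h1.per h3 h6).th s (h1.th g x) - h1.th g x = 0 :=
    Multiplicative.ofAdd.injective h10
  omega

end Pool.Agent.Lib.Helper67.WG
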