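import Pool.Agent.Lib.Helper67.WG.Far

/-!
# Subexponential growth: commutation on long orbits
-/

namespace Pool.Agent.Lib.Helper67.WG

open Pool.Agent.Lib.Helper67.FCC

universe u

variable {E : Type u} [Group E] {P : Pres E} {r : ℕ}

/-- subexponential growth, in the weakest form -/
def SubExp (E : Type u) [Group E] : Prop :=
  ∃ S : Set E, S.Finite ∧ Subgroup.closure S = ⊤ ∧
    ∀ c : ℝ, 0 < c → ∃ r : ℕ, (Set.ncard {x : E | InBall S r x} : ℝ) < Real.exp (c * r)

theorem SubExp.not_growth (h : SubExp E) {X : Type} (F : E →* Equiv.Perm X) {k t : E} {x : X}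
    (hk : {y | F k y ≠ y}.Finite) (hx : F k x ≠ x) (ht : ∀ i : ℕ, F (t ^ (i + 1)) x ≠ x) :
    False := by
  obtain ⟨S, hSf, hS, h1⟩ := h
  obtain ⟨c, hc, h2⟩ := growth_of_finitary F hk hx ht hSf hS
  obtain ⟨n, hn⟩ := h1 c hc
  exact absurd (h2 n) (not_le.2 hn)

/-- eventually periodic on both sides, with small periods -/
def BiPer (z : Line P) (B : ℕ) : Prop :=
  (∃ R p : ℤ, 0 < p ∧ p ≤ B ∧ RPer z R p) ∧ ∃ R p : ℤ, 0 < p ∧ p ≤ B ∧ RPer (refl z) R p

theorem BiPer.refl {z : Line P} {B : ℕ} (h : BiPer z B) : BiPer (WG.refl z) B :=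
  ⟨h.2, by rw [refl_refl]; exact h.1⟩

theorem fix_far {z : Line P} (hz : Good r z) {R p : ℤ} (hp : 0 < p) {B : ℕ} (hpB : p ≤ B)
    (hR : RPer z R p) {a b : E} (ha : a ∈ Core E B) (hb : b ∈ Core E B) :
    ∃ N : ℤ, ∀ x, N ≤ x → hz.th ((b * a)⁻¹ * (a * b)) x = x := by
  refine ⟨R + disp P r ((b * a)⁻¹ * (a * b)), fun x hx => ?_⟩
  have h1 := th_congr hz (hz.per hp hR) ((b * a)⁻¹ * (a * b)) (c := x) (c' := x) (by
    intro i hi
    rw [abs_le] at hi
    exact (hR.per_eq hp (by omega)).symm)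
  have h2 : (hz.per hp hR).th ((b * a)⁻¹ * (a * b)) x = x := by
    rw [map_mul, Equiv.Perm.mul_apply, (hz.per hp hR).core_comm (periodic_per z R p) hp hpB ha hb,
      ← Equiv.Perm.mul_apply, ← map_mul, inv_mul_cancel, map_one]
    rfl
  omega

theorem comm_of_unb (hE : SubExp E) {z : Line P} (hz : Good r z) {B : ℕ} (hB : BiPer z B)
    {m : ℤ} (hm : Unb z m) {a b : E} (ha : a ∈ Core E B) (hb : b ∈ Core E B) :
    hz.th (a * b) m = hz.th (b * a) m := by
  by_contra hcon
  obtain ⟨⟨R, p, hp, hpB, hR⟩, ⟨R', p', hp', hpB', hR'⟩⟩ := hB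
  obtain ⟨N, hN⟩ := fix_far hz hp hpB hR ha hb
  obtain ⟨N', hN'⟩ := fix_far hz.refl hp' hpB' hR' ha hb
  obtain ⟨g, -, s, -, δ, hδ, -, h1⟩ := far hz hp hR hpB hm
  refine hE.not_growth hz.th (k := (b * a)⁻¹ * (a * b)) (t := g⁻¹ * s * g) (x := m) ?_ ?_ ?_
  · refine (Set.finite_Ioo (-N') N).subset ?_
    intro x hx
    constructor
    · by_contra h2
      apply hx
      have h3 := hN' (-x) (by omega)
      rw [th_refl hz hz.refl, neg_neg] at h3
      omega
    · by_contra h2
      exact hx (hN x (by omega))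
  · intro h2
    apply hcon
    rw [map_mul, Equiv.Perm.mul_apply, map_inv, Equiv.Perm.inv_eq_iff_eq] at h2
    exact h2
  · intro i h2
    have h3 : (g⁻¹ * s * g) ^ (i + 1) = g⁻¹ * (s ^ (i + 1) * g) := by
      have h4 := conj_pow (a := g⁻¹) (b := s) (i := i + 1)
      rw [inv_inv] at h4
      rw [h4, mul_assoc]
    rw [h3, map_mul, Equiv.Perm.mul_apply, map_inv, Equiv.Perm.inv_eq_iff_eq, map_mul,
      Equiv.Perm.mul_apply, h1 (i + 1)] at h2
    have h4 : (0 : ℤ) < ((i + 1 : ℕ) : ℤ) * δ := by positivity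
    omega

theorem reach_refl {d : Line P} {x y : ℤ} (h : Reach d x y) : Reach (refl d) (-x) (-y) := by
  induction h with
  | refl => exact Relation.ReflTransGen.refl
  | tail _ h ih =>
    obtain ⟨a, rfl⟩ := h
    refine ih.tail ⟨a, ?_⟩
    simp only [refl, neg_neg]
    ring

/-- a bi-periodic line with an unbounded orbit through `m` which agrees with `d` near `m` -/
theorem exists_biPer {d : Line P} (hd : Good r d) {m v : ℤ} (D : ℕ) (hv : Reach d m v)
    (hmv : m + BB P r + 2 * D + 1 ≤ v) :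
    ∃ z : Line P, Good r z ∧ BiPer z (BB P r) ∧ (∀ i, |i| ≤ (2 * D : ℤ) → z (m + i) = d (m + i)) ∧
      (Unb z m ∨ Unb (refl z) (-m)) := by
  obtain ⟨d', c, p, h1, h2, h3, h4, h5, h6, h7⟩ := pump hd (x := m) (a := m + 2 * D + 1) (by omega)
  have h8 : Unb d' m := h7 ⟨v, by omega, hv⟩
  have hpB : p ≤ BB P r := by omega
  by_cases hcase : ∃ y, (-m + 2 * D + 1) + BB P r ≤ y ∧ Reach (refl d') (-m) y
  · obtain ⟨w, c2, p2, k1, k2, k3, k4, k5, k6, k7⟩ := pump h1.refl (x := -m)
      (a := -m + 2 * D + 1) (by omega)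
    have k8 : Unb w (-m) := k7 hcase
    have k9 : ∀ x, -(c2 + p2) < x → refl w x = d' x := by
      intro x hx
      show (fun a => - w (-x) a) = _
      rw [k5 (-x) (by omega)]
      funext a
      simp [refl]
    refine ⟨refl w, k1.refl, ⟨⟨max c (-(c2 + p2) + 1), p, h3, hpB, ?_⟩, ⟨c2, p2, k3, by omega, by
      rw [refl_refl]; exact k6⟩⟩, ?_, Or.inr (by rw [refl_refl]; exact k8)⟩
    · intro x hx
      have hx1 := le_trans (le_max_left _ _) hx
      have hx2 := le_trans (le_max_right _ _) hx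
      rw [k9 _ (by omega), k9 _ (by omega), h6 x hx1]
    · intro i hi
      rw [abs_le] at hi
      rw [k9 _ (by omega), h5 _ (by omega)]
  · push Not at hcase
    obtain ⟨w, c2, p2, k1, k2, k3, k4, k5, k6, -⟩ := pump h1.refl (x := -m)
      (a := (-m + 2 * D + 1) + BB P r) (by omega)
    have k9 : ∀ x, -(c2 + p2) < x → refl w x = d' x := by
      intro x hx
      show (fun a => - w (-x) a) = _
      rw [k5 (-x) (by omega)]
      funext a
      simp [refl]
    have k10 : ∀ y, Reach (refl d') (-m) y → Reach w (-m) y := by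
      intro y hy
      induction hy with
      | refl => exact Relation.ReflTransGen.refl
      | @tail u v' hu huv ih =>
        obtain ⟨a, ha⟩ := huv
        refine ih.tail ⟨a, ?_⟩
        have h9 : u < (-m + 2 * D + 1) + BB P r := by
          by_contra h9
          exact hcase u (by omega) hu
        rw [ha, k5 u (by omega)]
    refine ⟨refl w, k1.refl, ⟨⟨max c (-(c2 + p2) + 1), p, h3, hpB, ?_⟩, ⟨c2, p2, k3, by omega, by
      rw [refl_refl]; exact k6⟩⟩, ?_, Or.inl ?_⟩
    · intro x hx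
      have hx1 := le_trans (le_max_left _ _) hx
      have hx2 := le_trans (le_max_right _ _) hx
      rw [k9 _ (by omega), k9 _ (by omega), h6 x hx1]
    · intro i hi
      rw [abs_le] at hi
      rw [k9 _ (by omega), h5 _ (by omega)]
    · intro K
      obtain ⟨y, hy, h9⟩ := h8 K
      refine ⟨y, hy, ?_⟩
      have h10 := reach_refl (k10 _ (reach_refl h9))
      rwa [neg_neg, neg_neg] at h10

theorem comm_right (hE : SubExp E) {d : Line P} (hd : Good r d) {m v : ℤ} {D : ℕ} {s s' : E}
    (hs : s ∈ Core E (BB P r)) (hs' : s' ∈ Core E (BB P r)) (hD : disp P r s ≤ D)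
    (hD' : disp P r s' ≤ D) (hv : Reach d m v) (hmv : m + BB P r + 2 * D + 1 ≤ v) :
    hd.th (s * s') m = hd.th (s' * s) m := by
  obtain ⟨z, hz, h1, h2, h3⟩ := exists_biPer hd D hv hmv
  have key : ∀ a b : E, disp P r a ≤ D → disp P r b ≤ D →
      hd.th (a * b) m = hz.th (a * b) m := by
    intro a b ha hb
    have h4 := th_congr hd hz b (c := m) (c' := m) (by
      intro i hi
      exact (h2 i (by omega)).symm)
    have h5 := hd.th_bd b m
    have h6 := th_congr hd hz a (c := hd.th b m) (c' := hd.th b m) (by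
      intro i hi
      have h7 := abs_add_le (hd.th b m - m) i
      have h8 := h2 (hd.th b m - m + i) (by omega)
      have h9 : m + (hd.th b m - m + i) = hd.th b m + i := by ring
      rw [h9] at h8
      exact h8.symm)
    rw [map_mul, map_mul, Equiv.Perm.mul_apply, Equiv.Perm.mul_apply]
    have h10 : hz.th b m = hd.th b m := by omega
    rw [h10]
    omega
  rw [key s s' hD hD', key s' s hD' hD]
  rcases h3 with h3 | h3
  · exact comm_of_unb hE hz h1 h3 hs hs'
  · have h4 := comm_of_unb hE hz.refl h1.refl h3 hs hs'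
    rw [th_refl hz, th_refl hz, neg_neg] at h4
    omega

theorem comm_near (hE : SubExp E) {d : Line P} (hd : Good r d) {m v : ℤ} {D : ℕ} {s s' : E}
    (hs : s ∈ Core E (BB P r)) (hs' : s' ∈ Core E (BB P r)) (hD : disp P r s ≤ D)
    (hD' : disp P r s' ≤ D) (hv : Reach d m v) (hmv : BB P r + 2 * D + 1 ≤ |v - m|) :
    hd.th (s * s') m = hd.th (s' * s) m := by
  rcases le_total m v with h | h
  · rw [abs_of_nonneg (by omega)] at hmv
    exact comm_right hE hd hs hs' hD hD' hv (by omega)
  · rw [abs_of_nonpos (by omega)] at hmv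
    have h1 := comm_right hE hd.refl (m := -m) (v := -v) hs hs' hD hD' (reach_refl hv) (by omega)
    rw [th_refl hd, th_refl hd, neg_neg] at h1
    omega

theorem Good.reach_symm {d : Line P} (hd : Good r d) {x y : ℤ} (h : Reach d x y) :
    Reach d y x := by
  obtain ⟨e, rfl⟩ := hd.exists_th_of_reach h
  have h1 := hd.reach_th e⁻¹ (hd.th e x)
  rwa [← Equiv.Perm.mul_apply, ← map_mul, inv_mul_cancel, map_one] at h1

/-- short orbits are fixed by the core -/
theorem Good.fix_short {d : Line P} (hd : Good r d) {x : ℤ} {C : ℕ}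
    (h : ∀ y, Reach d x y → |y - x| ≤ C) {e : E} (he : e ∈ Core E (2 * C + 1)) :
    hd.th e x = x := by
  let O : Set ℤ := {y | Reach d x y}
  have hsub : O ⊆ Set.Icc (x - C) (x + C) := by
    intro y hy
    have := h y hy
    rw [abs_le] at this
    exact ⟨by omega, by omega⟩
  have hfin : O.Finite := (Set.finite_Icc _ _).subset hsub
  have : Finite O := hfin.to_subtype
  obtain ⟨F', hF'⟩ := restrict hd.th (O := O) (fun e y hy => hy.trans (hd.reach_th e y))
  have hcard : Nat.card O ≤ 2 * C + 1 := by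
    have h1 : O.ncard ≤ (Set.Icc (x - C) (x + C)).ncard :=
      Set.ncard_le_ncard hsub (Set.finite_Icc _ _)
    have h2 : (Set.Icc (x - C) (x + C)).ncard = 2 * C + 1 := by
      rw [Set.ncard_eq_toFinset_card']
      simp
      omega
    rw [h2] at h1
    exact h1
  have h1 := core_apply hcard F' he ⟨x, Relation.ReflTransGen.refl⟩
  have h2 := congrArg Subtype.val h1
  rw [hF'] at h2
  exact h2

/-- **Theorem B.** -/
theorem exists_comm (hE : SubExp E) (P : Pres E) (r : ℕ) :
    ∃ C : ℕ, ∀ (d : Line P) (hd : Good r d), ∀ a ∈ Core E C, ∀ b ∈ Core E C, ∀ x,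
      hd.th (a * b) x = hd.th (b * a) x := by
  have hfg := fg_of_pres P
  have hcore : (Core E (BB P r)).FiniteIndex := core_finiteIndex _
  obtain ⟨T, hTf, hTH, hTinv, hT⟩ := exists_generators hfg (Core E (BB P r))
  obtain ⟨D, hD⟩ := exists_disp_bound P r hTf
  let C₀ : ℕ := 2 * (BB P r + 2 * D + 1)
  refine ⟨2 * C₀ + 1, fun d hd a ha b hb x => ?_⟩
  by_cases hlong : ∃ u, Reach d x u ∧ (C₀ : ℤ) ≤ |u - x|
  · obtain ⟨u, hu, hu2⟩ := hlong
    have key : ∀ s ∈ T, ∀ s' ∈ T, ∀ y, Reach d x y → hd.th (s * s') y = hd.th (s' * s) y := by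
      intro s hs s' hs' y hy
      have h1 : (BB P r + 2 * D + 1 : ℤ) ≤ |x - y| ∨ (BB P r + 2 * D + 1 : ℤ) ≤ |u - y| := by
        by_contra hcon
        push Not at hcon
        have h2 := abs_sub_le u y x
        rw [abs_sub_comm y x] at h2
        have h3 : (C₀ : ℤ) = 2 * (BB P r + 2 * D + 1) := by simp [C₀]
        omega
      rcases h1 with h1 | h1
      · exact comm_near hE hd (hTH hs) (hTH hs') (hD s hs) (hD s' hs') (hd.reach_symm hy) h1
      · exact comm_near hE hd (hTH hs) (hTH hs') (hD s hs) (hD s' hs')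
          ((hd.reach_symm hy).trans hu) h1
    have key2 : ∀ s ∈ T, ∀ l : List E, (∀ t ∈ l, t ∈ T) → ∀ y, Reach d x y →
        hd.th (s * l.prod) y = hd.th (l.prod * s) y := by
      intro s hs l
      induction l with
      | nil => intro _ y _; simp
      | cons t l ih =>
        intro hl y hy
        have ht : t ∈ T := hl t (by simp)
        have ih' := ih fun t ht => hl t (List.mem_cons_of_mem _ ht)
        have h1 : s * (t :: l).prod = (s * t) * l.prod := by rw [List.prod_cons, mul_assoc]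
        have h2 : (t :: l).prod * s = t * (l.prod * s) := by rw [List.prod_cons, mul_assoc]
        rw [h1, h2, map_mul hd.th (s * t), Equiv.Perm.mul_apply,
          key s hs t ht _ (hy.trans (hd.reach_th _ _)), ← Equiv.Perm.mul_apply, ← map_mul,
          mul_assoc, map_mul hd.th t, Equiv.Perm.mul_apply, ih' y hy, map_mul hd.th t,
          Equiv.Perm.mul_apply]
    have key3 : ∀ l' : List E, (∀ t ∈ l', t ∈ T) → ∀ l : List E, (∀ t ∈ l, t ∈ T) →
        ∀ y, Reach d x y → hd.th (l'.prod * l.prod) y = hd.th (l.prod * l'.prod) y := by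
      intro l'
      induction l' with
      | nil => intro _ l _ y _; simp
      | cons t l' ih =>
        intro hl' l hl y hy
        have ht : t ∈ T := hl' t (by simp)
        have ih' := ih (fun t ht => hl' t (List.mem_cons_of_mem _ ht)) l hl
        have h1 : (t :: l').prod * l.prod = t * (l'.prod * l.prod) := by
          rw [List.prod_cons, mul_assoc]
        have h2 : l.prod * (t :: l').prod = (l.prod * t) * l'.prod := by
          rw [List.prod_cons, mul_assoc]
        rw [h1, h2, map_mul hd.th t, Equiv.Perm.mul_apply, ih' y hy, ← Equiv.Perm.mul_apply,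
          ← map_mul, ← mul_assoc, map_mul hd.th (t * l.prod), Equiv.Perm.mul_apply,
          key2 t ht l hl _ (hy.trans (hd.reach_th _ _)), map_mul hd.th (l.prod * t),
          Equiv.Perm.mul_apply]
    have hle : Core E (2 * C₀ + 1) ≤ Core E (BB P r) := core_anti (by simp only [C₀]; omega)
    obtain ⟨la, h1, rfl⟩ := hT a (hle ha)
    obtain ⟨lb, h2, rfl⟩ := hT b (hle hb)
    exact key3 la h1 lb h2 x Relation.ReflTransGen.refl
  · push Not at hlong
    have h1 : ∀ y, Reach d x y → |y - x| ≤ (C₀ : ℤ) := fun y hy => (hlong y hy).le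
    rw [hd.fix_short h1 (Subgroup.mul_mem _ ha hb), hd.fix_short h1 (Subgroup.mul_mem _ hb ha)]

/-- **Theorem A'.** -/
theorem exists_fix (P : Pres E) (r : ℕ)
    (hE : ∀ H : Subgroup E, H.FiniteIndex → ∀ f : H →* Multiplicative ℤ, f = 1) :
    ∃ C : ℕ, ∀ (d : Line P) (hd : Good r d), ∀ a ∈ Core E C, ∀ x, hd.th a x = x := by
  have hfg := fg_of_pres P
  refine ⟨2 * (BB P r + 1) + 1, fun d hd a ha x => ?_⟩
  refine hd.fix_short (fun y hy => ?_) ha
  by_contra hcon
  have h1 : ∃ x y, Reach d x y ∧ x + 1 + BB P r ≤ y := by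
    rcases le_total x y with h | h
    · rw [abs_of_nonneg (by omega)] at hcon
      refine ⟨x, y, hy, ?_⟩
      push_cast at hcon
      omega
    · rw [abs_of_nonpos (by omega)] at hcon
      refine ⟨y, x, hd.reach_symm hy, ?_⟩
      push_cast at hcon
      omega
  obtain ⟨x, y, h2, h3⟩ := h1
  obtain ⟨f, hf⟩ := exists_hom_of_long hd h2 h3
  exact hf (hE _ (core_finiteIndex _) f)

end Pool.Agent.Lib.Helper67.WG
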