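import Pool.Agent.Lib.Helper67.WG.Pres

/-!
# Periodic continuations of lines
-/

namespace Pool.Agent.Lib.Helper67.WG

universe u

variable {E : Type u} [Group E] {P : Pres E}

/-- the periodic line with block `[c, c+p)` -/
def per (d : Line P) (c p : ℤ) : Line P := fun x => d (c + (x - c) % p)

theorem per_add_mul (d : Line P) (c p x j : ℤ) : per d c p (x + p * j) = per d c p x := by
  have h1 : x + p * j - c = (x - c) + p * j := by ring
  simp only [per, h1, Int.add_mul_emod_self_left]

theorem per_add (d : Line P) (c p x : ℤ) : per d c p (x + p) = per d c p x := by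
  have := per_add_mul d c p x 1
  rwa [mul_one] at this

/-- eventually periodic to the right -/
def RPer (z : Line P) (R p : ℤ) : Prop := ∀ x, R ≤ x → z (x + p) = z x

theorem RPer.mono {z : Line P} {R R' p : ℤ} (h : RPer z R p) (hR : R ≤ R') : RPer z R' p :=
  fun x hx => h x (hR.trans hx)

theorem RPer.add_mul {z : Line P} {R p : ℤ} (hp : 0 < p) (h : RPer z R p) (n : ℕ) :
    ∀ x, R ≤ x → z (x + p * n) = z x := by
  induction n with
  | zero => intro x _; simp
  | succ n ih =>
    intro x hx
    have h1 : x + p * ((n + 1 : ℕ) : ℤ) = (x + p * n) + p := by push_cast; ring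
    have h2 : 0 ≤ p * (n : ℤ) := by positivity
    rw [h1, h _ (by omega), ih x hx]

theorem RPer.per_eq {z : Line P} {R p : ℤ} (hp : 0 < p) (h : RPer z R p) {x : ℤ} (hx : R ≤ x) :
    per z R p x = z x := by
  have h1 := Int.emod_add_mul_ediv (x - R) p
  have h2 : 0 ≤ (x - R) / p := Int.ediv_nonneg (by omega) hp.le
  obtain ⟨n, hn⟩ : ∃ n : ℕ, (x - R) / p = (n : ℤ) := Int.eq_ofNat_of_zero_le h2
  have h3 : 0 ≤ (x - R) % p := Int.emod_nonneg _ hp.ne'
  rw [hn] at h1
  have h4 := h.add_mul hp n (R + (x - R) % p) (by omega)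
  show z (R + (x - R) % p) = z x
  rw [← h4]
  congr 1
  omega

theorem Good.per {r : ℕ} {z : Line P} {R p : ℤ} (hz : Good r z) (hp : 0 < p) (h : RPer z R p) :
    Good r (WG.per z R p) := by
  have hM0 : (0 : ℤ) ≤ r * P.m := by positivity
  refine Good.glue (M := r * P.m) le_rfl hM0 fun x => ?_
  have hj : (0 : ℤ) ≤ ((R + r * P.m - x).toNat : ℤ) := by positivity
  have hj2 : (R + r * P.m - x) ≤ ((R + r * P.m - x).toNat : ℤ) := Int.self_le_toNat _
  have hj3 : ((R + r * P.m - x).toNat : ℤ) ≤ p * ((R + r * P.m - x).toNat : ℤ) :=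
    le_mul_of_one_le_left hj hp
  refine ⟨z, hz, x + p * ((R + r * P.m - x).toNat : ℤ), fun i hi => ?_⟩
  rw [abs_le] at hi
  rw [← h.per_eq hp (x := x + p * ((R + r * P.m - x).toNat : ℤ) + i) (by omega)]
  have h1 : x + p * ((R + r * P.m - x).toNat : ℤ) + i =
      (x + i) + p * ((R + r * P.m - x).toNat : ℤ) := by ring
  rw [h1, per_add_mul]

/-- `d` to the left of `c`, periodic to the right -/
def rper (d : Line P) (c p : ℤ) : Line P := fun x => if x < c then d x else per d c p x

theorem rper_of_lt {d : Line P} {c p x : ℤ} (hx : x < c + p) : rper d c p x = d x := by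
  by_cases h : x < c
  · simp [rper, h]
  · have h1 : (x - c) % p = x - c := Int.emod_eq_of_lt (by omega) (by omega)
    simp [rper, h, per, h1]

theorem rper_of_le {d : Line P} {c p M x : ℤ} (hM : M < p)
    (hw : ∀ i, |i| ≤ M → d (c + i) = d (c + p + i)) (hx : x ≤ c + p + M) :
    rper d c p x = d x := by
  rcases lt_or_ge x (c + p) with h | h
  · exact rper_of_lt h
  · have h1 : (x - c) % p = x - c - p := by
      have h2 : x - c = (x - c - p) + p := by ring
      rw [h2, Int.add_emod_right, Int.emod_eq_of_lt (by omega) (by omega)]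
      ring
    have h3 : ¬ x < c := by omega
    simp only [rper, h3, if_false, per, h1]
    rw [hw (x - c - p) (by rw [abs_le]; omega)]
    congr 1
    ring

theorem rper_rper {d : Line P} {c p M : ℤ} (hM : M < p) (hM0 : 0 ≤ M)
    (hw : ∀ i, |i| ≤ M → d (c + i) = d (c + p + i)) : RPer (rper d c p) (c - M) p := by
  intro x hx
  by_cases h : x < c
  · rw [rper_of_lt (x := x) (by omega), rper_of_lt (by omega)]
    have := hw (x - c) (by rw [abs_le]; omega)
    rw [show c + (x - c) = x by ring, show c + p + (x - c) = x + p by ring] at this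
    exact this.symm
  · have h3 : ¬ x + p < c := by omega
    simp only [rper, h, h3, if_false]
    exact per_add _ _ _ _

theorem Good.rper {r : ℕ} {d : Line P} {c p M : ℤ} (hd : Good r d) (hM : M < p)
    (hrM : (r * P.m : ℤ) ≤ M) (hM0 : 0 ≤ M)
    (hw : ∀ i, |i| ≤ M → d (c + i) = d (c + p + i)) : Good r (WG.rper d c p) := by
  have hp : 0 < p := by omega
  have key : ∀ n : ℕ, ∀ x, x ≤ c + p * (n + 1) → ∃ y ≤ c + p, ∀ i, |i| ≤ M →
      WG.rper d c p (y + i) = WG.rper d c p (x + i) := by
    intro n
    induction n with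
    | zero =>
      intro x hx
      exact ⟨x, by simpa using hx, fun i _ => rfl⟩
    | succ n ih =>
      intro x hx
      by_cases h : x ≤ c + p
      · exact ⟨x, h, fun i _ => rfl⟩
      · obtain ⟨y, hy, h1⟩ := ih (x - p) (by
          have : p * ((n + 1 : ℕ) + 1 : ℤ) = p * (n + 1) + p := by push_cast; ring
          rw [this] at hx
          omega)
        refine ⟨y, hy, fun i hi => ?_⟩
        rw [h1 i hi]
        rw [abs_le] at hi
        have h2 := rper_rper hM hM0 hw (x - p + i) (by omega)
        rw [← h2]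
        congr 1
        ring
  refine Good.glue hrM hM0 fun x => ?_
  obtain ⟨y, hy, h1⟩ := key (x - c).toNat x (by
    have h2 := Int.self_le_toNat (x - c)
    have h3 : ((x - c).toNat : ℤ) + 1 ≤ p * (((x - c).toNat : ℤ) + 1) :=
      le_mul_of_one_le_left (by positivity) hp
    omega)
  refine ⟨d, hd, y, fun i hi => ?_⟩
  rw [← h1 i hi]
  rw [abs_le] at hi
  exact (rper_of_le hM hw (by omega)).symm

end Pool.Agent.Lib.Helper67.WG
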