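import Mathlib

/-!
# Finitely presented groups acting on the integers with bounded displacement: lines
-/

namespace Pool.Agent.Lib.Helper67.WG

universe u

/-- A finite presentation with formal inverses. -/
structure Pres (E : Type u) [Group E] where
  /-- letters -/
  L : Type
  /-- finitely many letters -/
  fin : Finite L
  /-- formal inverse -/
  inv : L → L
  inv_inv : ∀ a, inv (inv a) = a
  /-- the elements -/
  s : L → E
  s_inv : ∀ a, s (inv a) = (s a)⁻¹
  /-- the relations -/
  Rel : Set (List L)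
  /-- a bound for their lengths -/
  m : ℕ
  hm : ∀ l ∈ Rel, l.length ≤ m
  hinv : ∀ a, [inv a, a] ∈ Rel
  hrel : ∀ l ∈ Rel, (l.map s).prod = 1
  hgen : ∀ e, ∃ l : List L, (l.map s).prod = e
  huniv : ∀ f : L → Equiv.Perm ℤ, (∀ l ∈ Rel, (l.map f).prod = 1) →
    ∃ F : E →* Equiv.Perm ℤ, ∀ a, F (s a) = f a

/-- finitely presented groups have such presentations -/
theorem exists_pres (E : Type u) [Group E] [hE : Group.IsFinitelyPresented E] :
    Nonempty (Pres E) := by
  classical
  obtain ⟨n, φ, hφ, R, hR, hRφ⟩ := hE.out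
  obtain ⟨N, hN⟩ := (hR.image (fun w => w.toWord.length)).bddAbove
  let s : Fin n × Bool → E := fun a => φ (FreeGroup.mk [a])
  have hs : ∀ l : List (Fin n × Bool), (l.map s).prod = φ (FreeGroup.mk l) := by
    intro l
    induction l with
    | nil => exact (map_one φ).symm
    | cons a l ih =>
      rw [List.map_cons, List.prod_cons, ih]
      show φ (FreeGroup.mk [a]) * φ (FreeGroup.mk l) = _
      rw [← map_mul, FreeGroup.mul_mk]
      rfl
  let Rel : Set (List (Fin n × Bool)) :=
    Set.range (fun a : Fin n × Bool => [(a.1, !a.2), a]) ∪ FreeGroup.toWord '' R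
  refine ⟨{ L := Fin n × Bool, fin := inferInstance, inv := fun a => (a.1, !a.2),
            inv_inv := fun a => by simp, s := s, s_inv := ?_, Rel := Rel, m := N + 2,
            hm := ?_, hinv := fun a => Or.inl ⟨a, rfl⟩, hrel := ?_, hgen := ?_, huniv := ?_ }⟩
  · rintro ⟨a, b⟩
    show φ (FreeGroup.mk [(a, !b)]) = (φ (FreeGroup.mk [(a, b)]))⁻¹
    rw [← map_inv, FreeGroup.inv_mk]
    rfl
  · rintro l (⟨a, rfl⟩ | ⟨w, hw, rfl⟩)
    · simp
    · have := hN ⟨w, hw, rfl⟩
      simp only at this
      omega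
  · rintro l (⟨a, rfl⟩ | ⟨w, hw, rfl⟩)
    · rw [hs]
      have h1 : (FreeGroup.mk [(a.1, !a.2), a] : FreeGroup (Fin n)) = 1 := by
        have h2 : (FreeGroup.mk [(a.1, !a.2), a] : FreeGroup (Fin n)) =
            (FreeGroup.mk [a])⁻¹ * FreeGroup.mk [a] := by
          rw [FreeGroup.inv_mk, FreeGroup.mul_mk]
          rfl
        rw [h2, inv_mul_cancel]
      rw [h1, map_one]
    · rw [hs, FreeGroup.mk_toWord]
      exact MonoidHom.mem_ker.1 (hRφ ▸ Subgroup.subset_normalClosure hw)
  · intro e
    obtain ⟨w, rfl⟩ := hφ e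
    exact ⟨w.toWord, by rw [hs, FreeGroup.mk_toWord]⟩
  · intro f hf
    let F : FreeGroup (Fin n) →* Equiv.Perm ℤ := FreeGroup.lift fun i => f (i, true)
    have h1 : ∀ a : Fin n × Bool, F (FreeGroup.mk [a]) = f a := by
      rintro ⟨i, b⟩
      have h2 : F (FreeGroup.mk [(i, true)]) = f (i, true) := by
        show F (FreeGroup.of i) = _
        simp [F]
      cases b with
      | true => exact h2
      | false =>
        have h3 : (FreeGroup.mk [(i, false)] : FreeGroup (Fin n)) = (FreeGroup.mk [(i, true)])⁻¹ := by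
          rw [FreeGroup.inv_mk]
          rfl
        rw [h3, map_inv, h2]
        have h4 := hf [(i, !true), (i, true)] (Or.inl ⟨(i, true), rfl⟩)
        simp only [List.map_cons, List.map_nil, List.prod_cons, List.prod_nil, mul_one,
          Bool.not_true] at h4
        exact (eq_inv_of_mul_eq_one_left h4).symm
    have h2 : ∀ l : List (Fin n × Bool), F (FreeGroup.mk l) = (l.map f).prod := by
      intro l
      induction l with
      | nil => exact map_one F
      | cons a l ih =>
        rw [List.map_cons, List.prod_cons, ← ih, ← h1 a, ← map_mul, FreeGroup.mul_mk]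
        rfl
    have h3 : φ.ker ≤ F.ker := by
      rw [← hRφ]
      apply Subgroup.normalClosure_le_normal
      intro w hw
      show F w = 1
      rw [← FreeGroup.mk_toWord (x := w), h2]
      exact hf _ (Or.inr ⟨w, hw, rfl⟩)
    refine ⟨MonoidHom.liftOfSurjective φ hφ ⟨F, h3⟩, fun a => ?_⟩
    rw [← h1 a]
    exact MonoidHom.liftOfRightInverse_comp_apply φ _ _ ⟨F, h3⟩ (FreeGroup.mk [a])

variable {E : Type u} [Group E] (P : Pres E)

/-- a line: the displacements of the letters at all integers -/
abbrev Line : Type := ℤ → P.L → ℤ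

variable {P}

/-- following a word -/
def walk (d : Line P) : List P.L → ℤ → ℤ
  | [], x => x
  | a :: l, x => walk d l x + d (walk d l x) a

theorem walk_cons (d : Line P) (a : P.L) (l : List P.L) (x : ℤ) :
    walk d (a :: l) x = walk d l x + d (walk d l x) a := rfl

/-- good lines are actions -/
structure Good (r : ℕ) (d : Line P) : Prop where
  bd : ∀ x a, |d x a| ≤ r
  rel : ∀ l ∈ P.Rel, ∀ x, walk d l x = x

theorem Good.inv {r : ℕ} {d : Line P} (hd : Good r d) (x : ℤ) (a : P.L) :
    x + d x a + d (x + d x a) (P.inv a) = x := hd.rel _ (P.hinv a) x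

theorem Good.inv' {r : ℕ} {d : Line P} (hd : Good r d) (x : ℤ) (a : P.L) :
    x + d x (P.inv a) + d (x + d x (P.inv a)) a = x := by
  have h := hd.inv x (P.inv a)
  rwa [P.inv_inv] at h

theorem Good.exists_th {r : ℕ} {d : Line P} (hd : Good r d) :
    ∃ F : E →* Equiv.Perm ℤ, ∀ a x, F (P.s a) x = x + d x a := by
  let f : P.L → Equiv.Perm ℤ := fun a =>
    { toFun := fun x => x + d x a
      invFun := fun x => x + d x (P.inv a)
      left_inv := fun x => hd.inv x a
      right_inv := fun x => hd.inv' x a }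
  have h1 : ∀ (l : List P.L) (x : ℤ), (l.map f).prod x = walk d l x := by
    intro l x
    induction l with
    | nil => rfl
    | cons a l ih =>
      rw [List.map_cons, List.prod_cons, Equiv.Perm.mul_apply, ih]
      rfl
  obtain ⟨F, hF⟩ := P.huniv f (fun l hl => Equiv.ext fun x => by
    rw [h1, hd.rel l hl]
    rfl)
  exact ⟨F, fun a x => by rw [hF]; rfl⟩

/-- the action of a good line -/
noncomputable def Good.th {r : ℕ} {d : Line P} (hd : Good r d) : E →* Equiv.Perm ℤ :=
  hd.exists_th.choose

theorem Good.th_s {r : ℕ} {d : Line P} (hd : Good r d) (a : P.L) (x : ℤ) :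
    hd.th (P.s a) x = x + d x a := hd.exists_th.choose_spec a x

theorem Good.th_prod {r : ℕ} {d : Line P} (hd : Good r d) (l : List P.L) (x : ℤ) :
    hd.th (l.map P.s).prod x = walk d l x := by
  induction l with
  | nil => simp [walk]
  | cons a l ih => rw [List.map_cons, List.prod_cons, map_mul, Equiv.Perm.mul_apply, ih, hd.th_s,
      walk_cons]

variable (P) in
/-- a word for an element -/
noncomputable def word (e : E) : List P.L := (P.hgen e).choose

theorem word_prod (e : E) : ((word P e).map P.s).prod = e := (P.hgen e).choose_spec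

theorem Good.th_word {r : ℕ} {d : Line P} (hd : Good r d) (e : E) (x : ℤ) :
    hd.th e x = walk d (word P e) x := by
  rw [← hd.th_prod, word_prod]

/-- locality of walks -/
theorem walk_congr {r : ℕ} {d d' : Line P} {c c' K : ℤ} (hd : ∀ x a, |d x a| ≤ r)
    (h : ∀ i, |i| ≤ K → d (c + i) = d' (c' + i)) (l : List P.L) (hl : (r * l.length : ℤ) ≤ K) :
    ∃ δ : ℤ, |δ| ≤ r * l.length ∧ walk d l c = c + δ ∧ walk d' l c' = c' + δ := by
  induction l with
  | nil => exact ⟨0, by simp, by simp [walk], by simp [walk]⟩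
  | cons a l ih =>
    have h1 : ((a :: l).length : ℤ) = l.length + 1 := by simp
    rw [h1] at hl ⊢
    have hr : (0 : ℤ) ≤ r := by positivity
    have h2 : (r * (l.length + 1) : ℤ) = r * l.length + r := by ring
    rw [h2] at hl ⊢
    obtain ⟨δ, h3, h4, h5⟩ := ih (by omega)
    refine ⟨δ + d (c + δ) a, ?_, ?_, ?_⟩
    · have := hd (c + δ) a
      have := abs_add_le δ (d (c + δ) a)
      omega
    · rw [walk_cons, h4, add_assoc]
    · rw [walk_cons, h5, ← h δ (by omega), add_assoc]

theorem walk_bd {r : ℕ} {d : Line P} (hd : ∀ x a, |d x a| ≤ r) (l : List P.L) (x : ℤ) :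
    |walk d l x - x| ≤ r * l.length := by
  obtain ⟨δ, h1, h2, -⟩ := walk_congr (d' := d) (c := x) (c' := x) hd (fun i _ => rfl) l le_rfl
  rw [h2]
  simpa using h1

/-- gluing -/
theorem Good.glue {r : ℕ} {d' : Line P} {M : ℤ} (hM : (r * P.m : ℤ) ≤ M) (hM0 : 0 ≤ M)
    (h : ∀ x, ∃ d : Line P, Good r d ∧ ∃ y, ∀ i, |i| ≤ M → d (y + i) = d' (x + i)) :
    Good r d' := by
  refine ⟨fun x a => ?_, fun l hl x => ?_⟩
  · obtain ⟨d, hd, y, hy⟩ := h x
    have h1 := hy 0 (by simpa using hM0)
    simp only [add_zero] at h1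
    rw [← h1]
    exact hd.bd y a
  · obtain ⟨d, hd, y, hy⟩ := h x
    have h1 : (r * l.length : ℤ) ≤ M := by
      refine le_trans ?_ hM
      exact mul_le_mul_of_nonneg_left (by exact_mod_cast P.hm l hl) (by positivity)
    obtain ⟨δ, -, h2, h3⟩ := walk_congr hd.bd hy l h1
    rw [hd.rel l hl] at h2
    rw [h3]
    omega

/-- the displacement bound of an element -/
noncomputable def disp (P : Pres E) (r : ℕ) (e : E) : ℕ := r * (word P e).length

theorem Good.th_bd {r : ℕ} {d : Line P} (hd : Good r d) (e : E) (x : ℤ) :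
    |hd.th e x - x| ≤ disp P r e := by
  rw [hd.th_word]
  exact_mod_cast walk_bd hd.bd _ x

/-- locality of the action -/
theorem th_congr {r : ℕ} {d d' : Line P} (hd : Good r d) (hd' : Good r d') (e : E) {c c' : ℤ}
    (h : ∀ i, |i| ≤ (disp P r e : ℤ) → d (c + i) = d' (c' + i)) :
    hd.th e c - c = hd'.th e c' - c' := by
  obtain ⟨δ, -, h2, h3⟩ := walk_congr hd.bd h (word P e) (by
    show _ ≤ ((r * (word P e).length : ℕ) : ℤ)
    push_cast
    exact le_rfl)
  rw [hd.th_word, hd'.th_word, h2, h3]
  ring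

/-! ### reflection -/

/-- the reflected line -/
def refl (d : Line P) : Line P := fun x a => - d (-x) a

theorem refl_refl (d : Line P) : refl (refl d) = d := by
  funext x a
  simp [refl]

theorem walk_refl (d : Line P) (l : List P.L) (x : ℤ) : walk (refl d) l x = - walk d l (-x) := by
  induction l with
  | nil => simp [walk]
  | cons a l ih =>
    rw [walk_cons, walk_cons, ih]
    simp [refl]
    ring

theorem Good.refl {r : ℕ} {d : Line P} (hd : Good r d) : Good r (WG.refl d) := by
  refine ⟨fun x a => ?_, fun l hl x => ?_⟩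
  · show |- d (-x) a| ≤ r
    rw [abs_neg]
    exact hd.bd _ _
  · rw [walk_refl, hd.rel l hl, neg_neg]

theorem th_refl {r : ℕ} {d : Line P} (hd : Good r d) (hd' : Good r (refl d)) (e : E) (x : ℤ) :
    hd'.th e x = - hd.th e (-x) := by
  rw [hd'.th_word, hd.th_word, walk_refl]

/-! ### lines from actions -/

theorem exists_line {r : ℕ} (F : E →* Equiv.Perm ℤ) (hF : ∀ a x, |F (P.s a) x - x| ≤ r) :
    ∃ d : Line P, ∃ hd : Good r d, ∀ e x, hd.th e x = F e x := by
  let d : Line P := fun x a => F (P.s a) x - x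
  have h1 : ∀ (l : List P.L) (x : ℤ), walk d l x = F (l.map P.s).prod x := by
    intro l x
    induction l with
    | nil => simp [walk]
    | cons a l ih =>
      rw [walk_cons, ih, List.map_cons, List.prod_cons, map_mul, Equiv.Perm.mul_apply]
      simp [d]
  have hd : Good r d := ⟨fun x a => hF a x, fun l hl x => by
    rw [h1, P.hrel l hl, map_one]
    rfl⟩
  refine ⟨d, hd, fun e x => ?_⟩
  rw [hd.th_word, h1, word_prod]

end Pool.Agent.Lib.Helper67.WG
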