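import Pool.Agent.Lib.Helper67.WG.Per

/-!
# The pumping lemma
-/

namespace Pool.Agent.Lib.Helper67.WG

universe u

variable {E : Type u} [Group E] {P : Pres E}

/-- one step to the left of the cut `c` -/
def Step (d : Line P) (c x y : ℤ) : Prop := x < c ∧ y < c ∧ ∃ a, y = x + d x a

/-- connected to the left of the cut `c` -/
def Conn (d : Line P) (c : ℤ) : ℤ → ℤ → Prop := Relation.ReflTransGen (Step d c)

/-- in the same orbit -/
def Reach (d : Line P) : ℤ → ℤ → Prop := Relation.ReflTransGen (fun x y => ∃ a, y = x + d x a)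

theorem rtg_mono {α : Type} {r p : α → α → Prop} (h : ∀ a b, r a b → p a b) {a b : α}
    (hab : Relation.ReflTransGen r a b) : Relation.ReflTransGen p a b := by
  induction hab with
  | refl => exact Relation.ReflTransGen.refl
  | tail _ h1 ih => exact ih.tail (h _ _ h1)

theorem Conn.reach {d : Line P} {c x y : ℤ} (h : Conn d c x y) : Reach d x y :=
  rtg_mono (fun _ _ h => h.2.2) h

theorem Conn.mono {d : Line P} {c c' x y : ℤ} (hc : c ≤ c') (h : Conn d c x y) :
    Conn d c' x y :=
  rtg_mono (fun _ _ h =>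
    ⟨lt_of_lt_of_le h.1 hc, lt_of_lt_of_le h.2.1 hc, h.2.2⟩) h

theorem Conn.congr {d d' : Line P} {c x y : ℤ} (hd : ∀ z < c, d z = d' z) (h : Conn d c x y) :
    Conn d' c x y :=
  rtg_mono (fun u v h => ⟨h.1, h.2.1, by
    obtain ⟨a, ha⟩ := h.2.2
    exact ⟨a, by
      show v = u + d' u a
      rw [← hd u h.1]
      exact ha⟩⟩) h

theorem reach_walk (d : Line P) (l : List P.L) (x : ℤ) : Reach d x (walk d l x) := by
  induction l with
  | nil => exact Relation.ReflTransGen.refl
  | cons a l ih => exact ih.tail ⟨a, rfl⟩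

theorem Good.reach_th {r : ℕ} {d : Line P} (hd : Good r d) (e : E) (x : ℤ) :
    Reach d x (hd.th e x) := by
  rw [hd.th_word]
  exact reach_walk d _ x

theorem Good.exists_th_of_reach {r : ℕ} {d : Line P} (hd : Good r d) {x y : ℤ}
    (h : Reach d x y) : ∃ e, hd.th e x = y := by
  induction h with
  | refl => exact ⟨1, by simp⟩
  | tail _ h ih =>
    obtain ⟨e, he⟩ := ih
    obtain ⟨a, ha⟩ := h
    exact ⟨P.s a * e, by rw [map_mul, Equiv.Perm.mul_apply, he, hd.th_s, ha]⟩

/-- the ports: the marked point and the points close to the cut -/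
def port {r : ℕ} (x c : ℤ) : Option (Fin r) → ℤ
  | none => x
  | some j => c - 1 - j.1

theorem exists_port {r : ℕ} (x : ℤ) {c v : ℤ} (h1 : v < c) (h2 : c - r ≤ v) :
    ∃ j : Fin r, port x c (some j) = v :=
  ⟨⟨(c - 1 - v).toNat, by omega⟩, by simp only [port]; omega⟩

theorem transfer {d1 d2 : Line P} {r : ℕ} (hd : ∀ x a, |d1 x a| ≤ r) {x1 c1 x2 c2 p : ℤ}
    (hx1 : x1 < c1) (hrp : r ≤ p)
    (hπ : ∀ a b : Option (Fin r), Conn d1 c1 (port x1 c1 a) (port x1 c1 b) →
      Conn d2 c2 (port x2 c2 a) (port x2 c2 b))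
    (hseg : ∀ i : ℤ, -r ≤ i → i < p → d1 (c1 + i) = d2 (c2 + i)) (a b : Option (Fin r))
    (h : Conn d1 (c1 + p) (port x1 (c1 + p) a) (port x1 (c1 + p) b)) :
    Conn d2 (c2 + p) (port x2 (c2 + p) a) (port x2 (c2 + p) b) := by
  have hp0 : (0 : ℤ) ≤ p := le_trans (by positivity) hrp
  have key : ∀ v, Conn d1 (c1 + p) (port x1 (c1 + p) a) v →
      (c1 ≤ v ∧ Conn d2 (c2 + p) (port x2 (c2 + p) a) (v - c1 + c2)) ∨
      (v < c1 ∧ ∃ b : Option (Fin r), Conn d1 c1 (port x1 c1 b) v ∧
        Conn d2 (c2 + p) (port x2 (c2 + p) a) (port x2 c2 b)) := by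
    intro v hv
    induction hv with
    | refl =>
      cases a with
      | none =>
        right
        exact ⟨hx1, none, Relation.ReflTransGen.refl, Relation.ReflTransGen.refl⟩
      | some j =>
        left
        have hj := j.2
        refine ⟨by simp only [port]; omega, ?_⟩
        have h1 : port x1 (c1 + p) (some j) - c1 + c2 = port x2 (c2 + p) (some j) := by
          simp only [port]; omega
        rw [h1]
        exact Relation.ReflTransGen.refl
    | @tail v w _ hvw ih =>
      obtain ⟨hv, hw, α, hα⟩ := hvw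
      have hb := hd v α
      rw [abs_le] at hb
      rcases ih with ⟨h1, h2⟩ | ⟨h1, b, h2, h3⟩
      · have h4 : Conn d2 (c2 + p) (port x2 (c2 + p) a) (w - c1 + c2) := by
          refine h2.tail ⟨by omega, by omega, α, ?_⟩
          have h5 := hseg (v - c1) (by omega) (by omega)
          rw [show c1 + (v - c1) = v by ring, show c2 + (v - c1) = v - c1 + c2 by ring] at h5
          rw [← h5]
          omega
        rcases lt_or_ge w c1 with hw1 | hw1
        · right
          obtain ⟨j, hj⟩ := exists_port (r := r) x1 (c := c1) (v := w) hw1 (by omega)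
          refine ⟨hw1, some j, ?_, ?_⟩
          · rw [hj]
            exact Relation.ReflTransGen.refl
          · have h5 : port x2 c2 (some j) = w - c1 + c2 := by
              rw [← hj]
              simp only [port]; omega
            rw [h5]
            exact h4
        · exact Or.inl ⟨hw1, h4⟩
      · rcases lt_or_ge w c1 with hw1 | hw1
        · right
          exact ⟨hw1, b, h2.tail ⟨h1, hw1, α, hα⟩, h3⟩
        · left
          refine ⟨hw1, ?_⟩
          obtain ⟨j, hj⟩ := exists_port (r := r) x1 (c := c1) (v := v) h1 (by omega)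
          rw [← hj] at h2
          have h4 := h3.trans ((hπ b (some j) h2).mono (by omega))
          have h5 : port x2 c2 (some j) = v - c1 + c2 := by
            rw [← hj]
            simp only [port]; omega
          rw [h5] at h4
          refine h4.tail ⟨by omega, by omega, α, ?_⟩
          have h6 := hseg (v - c1) (by omega) (by omega)
          rw [show c1 + (v - c1) = v by ring, show c2 + (v - c1) = v - c1 + c2 by ring] at h6
          rw [← h6]
          omega
  rcases key _ h with ⟨h1, h2⟩ | ⟨h1, b', h2, h3⟩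
  · cases b with
    | none => exact absurd h1 (not_le.2 hx1)
    | some j =>
      have h4 : port x1 (c1 + p) (some j) - c1 + c2 = port x2 (c2 + p) (some j) := by
        simp only [port]; omega
      rwa [h4] at h2
  · cases b with
    | none => exact h3.trans ((hπ b' none h2).mono (by omega))
    | some j =>
      have hj := j.2
      simp only [port] at h1
      omega

theorem exit {d : Line P} {r : ℕ} (hd : ∀ x a, |d x a| ≤ r) {x c : ℤ} (hx : x < c) {y : ℤ}
    (h : Reach d x y) : (Conn d c x y ∧ y < c) ∨ ∃ j : Fin r, Conn d c x (port x c (some j)) := by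
  induction h with
  | refl => exact Or.inl ⟨Relation.ReflTransGen.refl, hx⟩
  | @tail v w _ hvw ih =>
    obtain ⟨α, hα⟩ := hvw
    have hb := hd v α
    rw [abs_le] at hb
    rcases ih with ⟨h1, h2⟩ | h1
    · rcases lt_or_ge w c with hw | hw
      · exact Or.inl ⟨h1.tail ⟨h2, hw, α, hα⟩, hw⟩
      · right
        obtain ⟨j, hj⟩ := exists_port (r := r) x (c := c) (v := v) h2 (by omega)
        exact ⟨j, by rw [hj]; exact h1⟩
    · exact Or.inr h1

/-- the window radius -/
def Mw (P : Pres E) (r : ℕ) : ℕ := r * P.m + r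

/-- the type of local data -/
abbrev Dat (P : Pres E) (r : ℕ) : Type :=
  (Set.Icc (-(Mw P r : ℤ)) (Mw P r) → P.L → Set.Icc (-(r : ℤ)) r) ×
    (Option (Fin r) → Option (Fin r) → Prop)

instance (P : Pres E) (r : ℕ) : Finite (Dat P r) := by
  have := P.fin
  infer_instance

/-- the pumping constant -/
noncomputable def BB (P : Pres E) (r : ℕ) : ℕ := Nat.card (Dat P r) * (Mw P r + 1)

/-- the data at a cut -/
def dat {r : ℕ} {d : Line P} (hd : Good r d) (x c : ℤ) : Dat P r :=
  (fun i a => ⟨d (c + i.1) a, abs_le.1 (hd.bd _ _)⟩,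
    fun a b => Conn d c (port x c a) (port x c b))

theorem pigeon {r : ℕ} {d : Line P} (hd : Good r d) (x a : ℤ) :
    ∃ c p : ℤ, a ≤ c ∧ c + p ≤ a + BB P r ∧ Mw P r < p ∧ dat hd x c = dat hd x (c + p) := by
  let f : Fin (Nat.card (Dat P r) + 1) → Dat P r := fun k =>
    dat hd x (a + k.1 * (Mw P r + 1))
  have h1 : ¬ Function.Injective f := by
    intro h
    have h2 := Nat.card_le_card_of_injective f h
    rw [Nat.card_fin] at h2
    omega
  have key : ∀ k l : Fin (Nat.card (Dat P r) + 1), k < l → f k = f l →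
      ∃ c p : ℤ, a ≤ c ∧ c + p ≤ a + BB P r ∧ Mw P r < p ∧ dat hd x c = dat hd x (c + p) := by
    intro k l hkl h
    have hl := l.2
    have h2 : ((k.1 : ℤ) + 1) * (Mw P r + 1) ≤ l.1 * (Mw P r + 1) := by
      apply mul_le_mul_of_nonneg_right _ (by positivity)
      have : k.1 < l.1 := hkl
      omega
    have h3 : ((k.1 : ℤ) + 1) * (Mw P r + 1) = k.1 * (Mw P r + 1) + (Mw P r + 1) := by ring
    have h4 : (l.1 : ℤ) * (Mw P r + 1) ≤ Nat.card (Dat P r) * (Mw P r + 1) := by
      apply mul_le_mul_of_nonneg_right _ (by positivity)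
      omega
    have h5 : (0 : ℤ) ≤ k.1 * (Mw P r + 1) := by positivity
    have h6 : (BB P r : ℤ) = Nat.card (Dat P r) * (Mw P r + 1) := by
      simp [BB]
    refine ⟨a + k.1 * (Mw P r + 1), l.1 * (Mw P r + 1) - k.1 * (Mw P r + 1), by omega, by omega,
      by omega, ?_⟩
    have h7 : a + (k.1 : ℤ) * (Mw P r + 1) + (l.1 * (Mw P r + 1) - k.1 * (Mw P r + 1)) =
      a + l.1 * (Mw P r + 1) := by ring
    rw [h7]
    exact h
  simp only [Function.Injective] at h1
  push Not at h1
  obtain ⟨k, l, h2, h3⟩ := h1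
  rcases lt_or_gt_of_ne h3 with h | h
  · exact key k l h h2
  · exact key l k h h2.symm

/-- **Pumping lemma.** -/
theorem pump {r : ℕ} {d : Line P} (hd : Good r d) {x a : ℤ} (hx : x < a) :
    ∃ (d' : Line P) (c p : ℤ), Good r d' ∧ a ≤ c ∧ 0 < p ∧ c + p ≤ a + BB P r ∧
      (∀ y, y < c + p → d' y = d y) ∧ RPer d' c p ∧
      ((∃ y, a + BB P r ≤ y ∧ Reach d x y) → ∀ K, ∃ y, K ≤ y ∧ Reach d' x y) := by
  obtain ⟨c, p, h1, h2, h3, h4⟩ := pigeon hd x a
  have hw : ∀ i : ℤ, |i| ≤ Mw P r → d (c + i) = d (c + p + i) := by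
    intro i hi
    funext α
    have h5 := congrFun (congrFun (congrArg Prod.fst h4) ⟨i, abs_le.1 hi⟩) α
    exact congrArg Subtype.val h5
  have hM0 : (0 : ℤ) ≤ Mw P r := by positivity
  have hrM : (r * P.m : ℤ) ≤ Mw P r := by
    simp only [Mw]; push_cast
    have : (0 : ℤ) ≤ r := by positivity
    omega
  have hrM' : (r : ℤ) ≤ Mw P r := by
    simp only [Mw]; push_cast
    have : (0 : ℤ) ≤ r * P.m := by positivity
    omega
  have hp : 0 < p := by omega
  have hR := rper_rper h3 hM0 hw
  refine ⟨rper d c p, c, p, hd.rper h3 hrM hM0 hw, h1, hp, h2, fun y hy => rper_of_lt hy,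
    hR.mono (by omega), ?_⟩
  rintro ⟨y, hy, hxy⟩ K
  have hxc : x < c := by omega
  obtain ⟨j, hj⟩ : ∃ j : Fin r, Conn d c x (port x c (some j)) := by
    rcases exit hd.bd hxc hxy with ⟨-, h5⟩ | h5
    · omega
    · exact h5
  have hdat : ∀ a b : Option (Fin r), Conn d c (port x c a) (port x c b) →
      Conn d (c + p) (port x (c + p) a) (port x (c + p) b) := by
    intro a b h
    have h5 := congrFun (congrFun (congrArg Prod.snd h4) a) b
    have h6 : Conn d c (port x c a) (port x c b) =
      Conn d (c + p) (port x (c + p) a) (port x (c + p) b) := h5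
    rw [← h6]
    exact h
  have hbd := (hd.rper h3 hrM hM0 hw).bd
  have hQ : ∀ k : ℕ, ∀ a b : Option (Fin r), Conn d c (port x c a) (port x c b) →
      Conn (rper d c p) (c + p * k) (port x (c + p * k) a) (port x (c + p * k) b) := by
    intro k
    induction k with
    | zero =>
      intro a b h
      simp only [Nat.cast_zero, mul_zero, add_zero]
      exact h.congr fun z hz => (rper_of_lt (by omega)).symm
    | succ k ih =>
      intro a b h
      have h5 : c + p * ((k + 1 : ℕ) : ℤ) = c + p * k + p := by push_cast; ring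
      rw [h5]
      refine transfer (d1 := rper d c p) (c1 := c) (x1 := x) hbd hxc (by omega) ?_ ?_ a b ?_
      · intro a b h
        exact ih a b (h.congr fun z hz => rper_of_lt (by omega))
      · intro i hi1 hi2
        have h6 := hR.add_mul hp k (c + i) (by omega)
        rw [← h6]
        congr 1
        ring
      · exact (hdat a b h).congr fun z hz => (rper_of_lt (by omega)).symm
  have hk1 : (0 : ℤ) ≤ ((K - c + r).toNat : ℤ) := by positivity
  have hk2 := Int.self_le_toNat (K - c + r)
  have hk3 : ((K - c + r).toNat : ℤ) ≤ p * ((K - c + r).toNat : ℤ) :=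
    le_mul_of_one_le_left hk1 hp
  refine ⟨port x (c + p * ((K - c + r).toNat : ℤ)) (some j), ?_, ?_⟩
  · have := j.2
    simp only [port]
    omega
  · exact (hQ (K - c + r).toNat none (some j) hj).reach

end Pool.Agent.Lib.Helper67.WG
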