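import Pool.Agent.Lib.Helper67.WG.Long

/-!
# From narrow actions to lines
-/

namespace Pool.Agent.Lib.Helper67.WG

universe u v

variable {E : Type u} [Group E] {V : Type v}

theorem exists_idx {s : Set V} {k : ℕ} (hs : s.encard ≤ k) :
    ∃ f : V → ℕ, (∀ w ∈ s, f w < k) ∧ Set.InjOn f s := by
  classical
  obtain ⟨h1, n, h2, h3⟩ := Set.encard_le_coe_iff.1 hs
  have : Finite s := h1.to_subtype
  have hcard : Nat.card s = n := by
    have h4 := h1.cast_ncard_eq
    rw [h2] at h4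
    exact_mod_cast h4
  let φ : s ≃ Fin (Nat.card s) := Finite.equivFin s
  refine ⟨fun w => if hw : w ∈ s then (φ ⟨w, hw⟩).1 else 0, ?_, ?_⟩
  · intro w hw
    have := (φ ⟨w, hw⟩).2
    simp only [hw, dif_pos]
    omega
  · intro w hw w' hw' h
    simp only [hw, hw', dif_pos] at h
    have := φ.injective (Fin.ext h)
    exact congrArg Subtype.val this

theorem exists_numbering {O : Set V} {h : V → ℤ} {k : ℕ} (hk : 1 ≤ k)
    (h2 : ∀ n, {w | w ∈ O ∧ h w = n}.encard ≤ k) :
    ∃ j : V → ℤ, Set.InjOn j O ∧ ∀ w ∈ O, (k : ℤ) * h w ≤ j w ∧ j w < k * h w + k := by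
  choose f hf1 hf2 using fun n => exists_idx (h2 n)
  have hb : ∀ w ∈ O, f (h w) w < k := fun w hw => hf1 (h w) w ⟨hw, rfl⟩
  refine ⟨fun w => k * h w + f (h w) w, ?_, ?_⟩
  · intro w hw w' hw' hww
    have h3 := hb w hw
    have h4 := hb w' hw'
    simp only at hww
    have h5 : h w = h w' := by
      have hk' : (0 : ℤ) < k := by exact_mod_cast hk
      have h6 : (k : ℤ) * (h w - h w') = f (h w') w' - f (h w) w := by linarith
      have h7 : (k : ℤ) * (h w - h w') < k * 1 := by rw [h6]; omega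
      have h8 : (k : ℤ) * (-1) < k * (h w - h w') := by rw [h6]; omega
      have h9 := lt_of_mul_lt_mul_left h7 hk'.le
      have h10 := lt_of_mul_lt_mul_left h8 hk'.le
      omega
    have h6 : f (h w) w = f (h w) w' := by
      rw [h5] at hww ⊢
      omega
    exact hf2 (h w) ⟨hw, rfl⟩ ⟨hw', h5.symm⟩ h6
  · intro w hw
    have := hb w hw
    simp only
    omega

theorem reduce (P : Pres E) (π : E →* Equiv.Perm V) (h : V → ℤ)
    (h1 : ∀ e, ∃ C : ℕ, ∀ v, |h (π e v) - h v| ≤ C) (k : ℕ)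
    (h2 : ∀ v n, {w | (∃ e, π e v = w) ∧ h w = n}.encard ≤ k) :
    ∃ r : ℕ, ∀ v, ∃ (d : Line P) (hd : Good r d) (x : ℤ),
      ∀ e e', hd.th e x = hd.th e' x → π e v = π e' v := by
  classical
  have hfin := P.fin
  choose C hC using h1
  obtain ⟨D, hD⟩ := (Set.finite_range (fun a => C (P.s a))).bddAbove
  have hD' : ∀ a, C (P.s a) ≤ D := fun a => hD ⟨a, rfl⟩
  let K : ℕ := k + 1
  have h2' : ∀ v n, {w | w ∈ {w | ∃ e, π e v = w} ∧ h w = n}.encard ≤ K := fun v n =>
    (h2 v n).trans (by exact_mod_cast Nat.le_succ k)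
  refine ⟨K * (D + 1), fun v => ?_⟩
  let O : Set V := {w | ∃ e, π e v = w}
  obtain ⟨j, hj1, hj2⟩ := exists_numbering (O := O) (h := h) (k := K) (by omega) (h2' v)
  obtain ⟨F', hF'⟩ := restrict π (O := O) (by
    rintro e _ ⟨e', rfl⟩
    exact ⟨e * e', by rw [map_mul]; rfl⟩)
  let jO : O → ℤ := fun w => j w.1
  have hjO : Function.Injective jO := fun w w' hww => Subtype.ext (hj1 w.2 w'.2 hww)
  let φ : O ≃ {x // x ∈ Set.range jO} := Equiv.ofInjective jO hjO
  let F : E →* Equiv.Perm ℤ := (Equiv.Perm.extendDomainHom φ).comp F'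
  have hF1 : ∀ e (w : O), F e (jO w) = jO (F' e w) := fun e w =>
    Equiv.Perm.extendDomain_apply_image (F' e) φ w
  have hF2 : ∀ e x, x ∉ Set.range jO → F e x = x := fun e x hx =>
    Equiv.Perm.extendDomain_apply_not_subtype (F' e) φ hx
  have hbd : ∀ a x, |F (P.s a) x - x| ≤ ((K * (D + 1) : ℕ) : ℤ) := by
    intro a x
    by_cases hx : x ∈ Set.range jO
    · obtain ⟨w, rfl⟩ := hx
      rw [hF1]
      have h3 := hj2 _ w.2
      have h4 := hj2 _ (F' (P.s a) w).2
      rw [hF'] at h4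
      have h5 := hC (P.s a) w.1
      have h6 := hD' a
      have h7 : |h (π (P.s a) w.1) - h w.1| ≤ D := h5.trans (by exact_mod_cast h6)
      rw [abs_le] at h7 ⊢
      have h8 : (K : ℤ) * (h (π (P.s a) w.1) - h w.1) ≤ K * D :=
        mul_le_mul_of_nonneg_left h7.2 (by positivity)
      have h9 : (K : ℤ) * (-D) ≤ K * (h (π (P.s a) w.1) - h w.1) :=
        mul_le_mul_of_nonneg_left h7.1 (by positivity)
      have h10 : jO (F' (P.s a) w) = j (π (P.s a) w.1) := by
        show j (F' (P.s a) w).1 = _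
        rw [hF']
      rw [h10]
      show -_ ≤ j (π (P.s a) w.1) - j w.1 ∧ j (π (P.s a) w.1) - j w.1 ≤ _
      push_cast
      rw [mul_sub] at h8 h9
      constructor <;> nlinarith
    · rw [hF2 _ _ hx, sub_self, abs_zero]
      positivity
  obtain ⟨d, hd, h3⟩ := exists_line F hbd
  let v₀ : O := ⟨v, 1, by rw [map_one]; rfl⟩
  refine ⟨d, hd, jO v₀, fun e e' hee => ?_⟩
  rw [h3, h3, hF1, hF1] at hee
  have h4 := congrArg Subtype.val (hjO hee)
  rw [hF', hF'] at h4
  exact h4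

end Pool.Agent.Lib.Helper67.WG
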